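import Pool.Agent.H40.MIC.Asm1

/-!
# Labels with a property at the grid

`Lg S Φ`: on large subevents of the events of the class `S` the statement `Φ` holds. Finitely many
hereditary statements hold on one large subevent (`Lg.all`).

`LabX m`: a property of the raw labels `G`, `H` at `(i, j)`, which is stable under subevents. The
labels of a cell with such a property: `grd_x` (from the labels at the points of the grid),
`FldX` (fields for these labels), `asm_okx` (the axioms `Ok2`).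
-/

set_option autoImplicit false

namespace Pool.STAT

open Finset MvPolynomial
open Pool.Agent.H49.Ent Pool.Agent.H32.Dense Pool.STK Pool.KS3 Pool.KA Pool.KSAT Pool.PB Pool.GEN
open Pool.K2S Pool.S6C

variable {m : ℕ}

namespace CLO

/-- **On large subevents** of the events of the class. -/
def Lg (S : PCl m) (Φ : Stat m) : Prop :=
  ∃ C : ℝ, 1 ≤ C ∧ Bas S (fun J F A => ∃ B : F.Ω → Prop, Sub B A ∧ Pe F.p A ≤ C * Pe F.p B ∧
    Φ J F B)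

theorem Lg.mono {S : PCl m} {Φ Ψ : Stat m} (J₂ : ℕ) (h : Lg S Φ)
    (hΨ : ∀ J ≥ J₂, ∀ (F : Fam m J) (A : F.Ω → Prop), Φ J F A → Ψ J F A) : Lg S Ψ := by
  obtain ⟨C, hC, h⟩ := h
  refine ⟨C, hC, Bas.mono J₂ h ?_⟩
  rintro J hJ F A ⟨B, h1, h2, h3⟩
  exact ⟨B, h1, h2, hΨ J hJ F B h3⟩

theorem Lg.of_bas {S : PCl m} {Φ : Stat m} (h : Bas S Φ) : Lg S Φ :=
  ⟨1, le_rfl, Bas.mono 0 h fun _ _ _ A hA => ⟨A, fun _ h => h, by rw [one_mul], hA⟩⟩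

/-- **Two statements**, the first is hereditary. -/
theorem Lg.and {S : PCl m} {Φ Ψ : Stat m} (her : ∀ (J : ℕ) (F : Fam m J), Hered (Φ J F))
    (h : Lg S Φ) (h' : Lg S Ψ) : Lg S (fun J F A => Φ J F A ∧ Ψ J F A) := by
  obtain ⟨C, hC, τ₁, hτ₁, J₁, h1⟩ := h
  obtain ⟨C', hC', τ₂, hτ₂, J₂, h2⟩ := h'
  obtain ⟨J₃, h3⟩ := exp_ev (τ := τ₂ / 2) (by positivity) C
  refine ⟨C * C', by nlinarith, min τ₁ (τ₂ / 2), lt_min hτ₁ (by positivity),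
    max J₁ (max J₂ J₃), fun J hJ F A hA => ?_⟩
  have j1 : J₁ ≤ J := (le_max_left _ _).trans hJ
  have j2 : J₂ ≤ J := ((le_max_left _ _).trans (le_max_right _ _)).trans hJ
  have j3 : J₃ ≤ J := ((le_max_right _ _).trans (le_max_right _ _)).trans hJ
  obtain ⟨B, hBA, hPe, hB⟩ := h1 J j1 F A (S.mono (min_le_left _ _) hA)
  have hA2 : S.St (τ₂ / 2) J F A := S.mono (min_le_right _ _) hA
  have hB2 : S.St (τ₂ / 2 + τ₂ / 2) J F B := by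
    refine S.res (by positivity) hA2 hBA ?_
    have h5 : Pe F.p A ≤ Real.exp (τ₂ / 2 * J) * Pe F.p B :=
      hPe.trans (mul_le_mul_of_nonneg_right (h3 J j3) (Pe_nonneg F.isLaw _))
    calc Real.exp (-(τ₂ / 2 * J)) * Pe F.p A ≤
          Real.exp (-(τ₂ / 2 * J)) * (Real.exp (τ₂ / 2 * J) * Pe F.p B) :=
          mul_le_mul_of_nonneg_left h5 (Real.exp_pos _).le
      _ = Pe F.p B := by
          rw [← mul_assoc, ← Real.exp_add, neg_add_cancel, Real.exp_zero, one_mul]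
  rw [add_halves] at hB2
  obtain ⟨B', hBB', hPe', hB'⟩ := h2 J j2 F B hB2
  refine ⟨B', fun ω hω => hBA ω (hBB' ω hω), ?_, her J F B B' hBB' hB, hB'⟩
  calc Pe F.p A ≤ C * Pe F.p B := hPe
    _ ≤ C * (C' * Pe F.p B') := mul_le_mul_of_nonneg_left hPe' (by linarith)
    _ = C * C' * Pe F.p B' := by ring

/-- **Finitely many hereditary statements** hold on one large subevent. -/
theorem Lg.all {ι : Type} {S : PCl m} (s : Finset ι) {Φ : ι → Stat m}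
    (her : ∀ i ∈ s, ∀ (J : ℕ) (F : Fam m J), Hered (Φ i J F)) (h : ∀ i ∈ s, Lg S (Φ i)) :
    Lg S (fun J F A => ∀ i ∈ s, Φ i J F A) := by
  classical
  induction s using Finset.induction_on with
  | empty =>
    exact ⟨1, le_rfl, 1, one_pos, 0, fun _ _ _ A _ => ⟨A, fun _ h => h, by rw [one_mul],
      fun i hi => absurd hi (Finset.notMem_empty i)⟩⟩
  | insert a s _ ih =>
    have h1 := Lg.and (fun J F => her a (Finset.mem_insert_self a s) J F)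
      (h a (Finset.mem_insert_self a s))
      (ih (fun i hi => her i (Finset.mem_insert_of_mem hi))
        fun i hi => h i (Finset.mem_insert_of_mem hi))
    refine h1.mono 0 fun J _ F A hA i hi => ?_
    rcases Finset.mem_insert.1 hi with rfl | hi
    · exact hA.1
    · exact hA.2 i hi

/-- **A property of raw labels** at `(i, j)`. -/
abbrev LabX (m : ℕ) : Type 1 := (i j J : ℕ) → (F : Fam m J) → (F.Ω → Prop) →
  (PtT F → ℕ → MvPolynomial (Option (Fin m)) ℝ) → (LnT F → ℕ → MvPolynomial (Option (Fin m)) ℝ) →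
  Prop

/-- The property is stable under subevents. -/
def LabX.Her (X : LabX m) : Prop := ∀ (i j J : ℕ) (F : Fam m J) (A B : F.Ω → Prop)
  (G : PtT F → ℕ → MvPolynomial (Option (Fin m)) ℝ)
  (H : LnT F → ℕ → MvPolynomial (Option (Fin m)) ℝ), Sub B A → X i j J F A G H → X i j J F B G H

/-- The labels of the grid have the property `X`. -/
def GDat.Has {J : ℕ} {F : Fam m J} (D : GDat F) (X : LabX m) (M : ℕ) (B : F.Ω → Prop) : Prop :=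
  ∀ i ≤ M, ∀ j ≤ M, X i j J F B (D.G i j) (D.H i j)

theorem GDat.Has.sub {J : ℕ} {F : Fam m J} {D : GDat F} {X : LabX m} {M : ℕ}
    {B B' : F.Ω → Prop} (h : D.Has X M B) (hX : X.Her) (hB : Sub B' B) : D.Has X M B' :=
  fun i hi j hj => hX i j J F B B' _ _ hB (h i hi j hj)

/-- **The grid with a property**, for one family. -/
theorem grid_famx (n K : ℕ) : ∃ (sh : ℕ → ℕ) (K' s₁ : ℕ), 1 ≤ K' ∧ ∀ {m : ℕ} {X : LabX m},
    X.Her → ∀ (J M a₀ w₀ z : ℕ)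
    (F : Fam m J) (c : ℕ → Fin m) (e : ℕ → ℕ → ℕ)
    (g : ℕ → ℕ → ℕ → ℕ) (A : F.Ω → Prop), w₀ + M * z ≤ a₀ → a₀ ≤ J →
    Inj c n → (∀ i ≤ M, ∀ j ≤ M, ∀ l < n, sh (l + 1) ≤ g i j l) →
    (∀ i ≤ M, ∀ j ≤ M, ∃ (G : PtT F → ℕ → MvPolynomial (Option (Fin m)) ℝ)
      (H : LnT F → ℕ → MvPolynomial (Option (Fin m)) ℝ),
      ChOK F c n (fun _ => K) (a₀ + i * z) (w₀ + j * z) (e i j) (g i j) A G H ∧
        X i j J F A G H) →
    ∃ (D : GDat F) (B : F.Ω → Prop), Sub B A ∧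
      Pe F.p A ≤ (K' : ℝ) ^ ((M + 1) ^ 2) * Pe F.p B ∧
      D.Ok c n K K' s₁ sh a₀ w₀ z M e g B ∧ D.Has X M B := by
  obtain ⟨sh, K', s₁, hK', hcd⟩ := cd2 n K
  refine ⟨sh, K', s₁, hK', ?_⟩
  intro m X hX J M a₀ w₀ z F c e g A hwa haJ hc hg h
  have h1 : ∀ i j, ∃ (G : PtT F → ℕ → MvPolynomial (Option (Fin m)) ℝ)
      (H : LnT F → ℕ → MvPolynomial (Option (Fin m)) ℝ), i ≤ M → j ≤ M →
      ChOK F c n (fun _ => K) (a₀ + i * z) (w₀ + j * z) (e i j) (g i j) A G H ∧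
        X i j J F A G H := by
    intro i j
    by_cases hij : i ≤ M ∧ j ≤ M
    · obtain ⟨G, H, h2⟩ := h i hij.1 j hij.2
      exact ⟨G, H, fun _ _ => h2⟩
    · exact ⟨fun _ _ => 0, fun _ _ => 0, fun hi hj => absurd ⟨hi, hj⟩ hij⟩
  choose G H hGH using h1
  obtain ⟨zL, PL, zS, zS', PS, B, hBA, hPe, hO⟩ := hcd m J M a₀ w₀ z F c
    (fun _ _ _ => K) e g A G H hwa haJ hc (fun _ _ _ _ _ _ => le_rfl) hg
    (fun i hi j hj => (hGH i j hi hj).1)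
  exact ⟨⟨G, H, zL, PL, zS, zS', PS⟩, B, hBA, hPe,
    ⟨fun i hi j hj => (hGH i j hi hj).1.sub hBA, hO⟩,
    fun i hi j hj => hX i j J F A B _ _ hBA (hGH i j hi hj).2⟩

/-- **The grid with a property, for a class**, from the labels at the points of the grid. -/
theorem grd_x (n K : ℕ) : ∃ (sh : ℕ → ℕ) (K' s₁ : ℕ), 1 ≤ K' ∧ ∀ {m : ℕ} {X : LabX m}, X.Her →
    ∀ {S : PCl m} {M : ℕ} {c : ℕ → Fin m} {α ϖ ζ : ℝ} {e : ℕ → ℕ → ℝ} {b : ℕ → ℕ → ℕ → ℝ},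
    0 ≤ ϖ → 0 < ζ → ϖ + (M + 1) * ζ < α → α + (M + 1) * ζ < 1 → Inj c n →
    (∀ i ≤ M, ∀ j ≤ M, ∀ l < n, 0 < b i j l) →
    (∀ i ≤ M, ∀ j ≤ M, Lg S (fun J F A =>
      ∃ (G : PtT F → ℕ → MvPolynomial (Option (Fin m)) ℝ)
        (H : LnT F → ℕ → MvPolynomial (Option (Fin m)) ℝ),
        ChOK F c n (fun _ => K) (up α J + i * up ζ J) (up ϖ J + j * up ζ J) ⌊e i j * J⌋₊
          (fun l => ⌊b i j l * J⌋₊) A G H ∧ X i j J F A G H)) →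
    Lg S (fun J F A => up ϖ J + (M + 1) * up ζ J ≤ up α J ∧
      up α J + (M + 1) * up ζ J ≤ J ∧ 1 ≤ up ζ J ∧
      ∃ D : GDat F, D.Ok c n K K' s₁ sh (up α J) (up ϖ J) (up ζ J) M (fun i j => ⌊e i j * J⌋₊)
        (fun i j l => ⌊b i j l * J⌋₊) A ∧ D.Has X M A) := by
  obtain ⟨sh, K', s₁, hK', hgr⟩ := grid_famx n K
  refine ⟨sh, K', s₁, hK', ?_⟩
  intro m X hX S M c α ϖ ζ e b hϖ hζ hthin htop hc hb h
  obtain ⟨J₁, h1⟩ := grid_ev hϖ hζ hthin htop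
  obtain ⟨J₂, h2⟩ := flo_ev hb sh
  have hall := Lg.all (S := S) (range (M + 1) ×ˢ range (M + 1)) (Φ := fun p J F A =>
      ∃ (G : PtT F → ℕ → MvPolynomial (Option (Fin m)) ℝ)
        (H : LnT F → ℕ → MvPolynomial (Option (Fin m)) ℝ),
        ChOK F c n (fun _ => K) (up α J + p.1 * up ζ J) (up ϖ J + p.2 * up ζ J) ⌊e p.1 p.2 * J⌋₊
          (fun l => ⌊b p.1 p.2 l * J⌋₊) A G H ∧ X p.1 p.2 J F A G H)
    (by
      rintro p - J F A B hB ⟨G, H, h3, h4⟩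
      exact ⟨G, H, h3.sub hB, hX _ _ _ _ _ _ _ _ hB h4⟩)
    (by
      intro p hp
      rw [Finset.mem_product, mem_range, mem_range] at hp
      exact h p.1 (by omega) p.2 (by omega))
  obtain ⟨C, hC, hall⟩ := hall
  have hK1 : (1 : ℝ) ≤ (K' : ℝ) ^ ((M + 1) ^ 2) :=
    one_le_pow₀ (by exact_mod_cast hK')
  refine ⟨C * (K' : ℝ) ^ ((M + 1) ^ 2), by nlinarith, ?_⟩
  refine Bas.mono (max J₁ J₂) hall ?_
  rintro J hJ F A ⟨B, hBA, hPe, hB⟩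
  obtain ⟨h3, h4, h5⟩ := h1 J ((le_max_left _ _).trans hJ)
  have h6 := h2 J ((le_max_right _ _).trans hJ)
  have e1 : (M + 1) * up ζ J = M * up ζ J + up ζ J := by ring
  obtain ⟨D, B', hBB, hPe', hD, hDX⟩ := hgr hX J M (up α J) (up ϖ J) (up ζ J) F c
    (fun i j => ⌊e i j * J⌋₊) (fun i j l => ⌊b i j l * J⌋₊) B (by omega) (by omega) hc h6
    (fun i hi j hj => hB (i, j) (by
      rw [Finset.mem_product, mem_range, mem_range]
      exact ⟨Nat.lt_succ_of_le hi, Nat.lt_succ_of_le hj⟩))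
  refine ⟨B', fun ω hω => hBA ω (hBB ω hω), ?_, h3, h4, h5, D, hD, hDX⟩
  calc Pe F.p A ≤ C * Pe F.p B := hPe
    _ ≤ C * ((K' : ℝ) ^ ((M + 1) ^ 2) * Pe F.p B') :=
        mul_le_mul_of_nonneg_left hPe' (by linarith)
    _ = C * (K' : ℝ) ^ ((M + 1) ^ 2) * Pe F.p B' := by ring

/-- **Fields for labels with a property.** -/
def FldX (S : PCl m) (X : LabX m) (c : ℕ → Fin m) (n K K' s₁ : ℕ) (sh : ℕ → ℕ) (α ϖ ζ : ℝ)
    (M : ℕ) (e : ℕ → ℕ → ℝ) (b : ℕ → ℕ → ℕ → ℝ)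
    (Φ : (J : ℕ) → (F : Fam m J) → GDat F → (F.Ω → ℝ) → Prop) : Prop :=
  Bas S (fun J F A => ∀ D : GDat F, D.Ok c n K K' s₁ sh (up α J) (up ϖ J) (up ζ J) M
    (fun i j => ⌊e i j * J⌋₊) (fun i j l => ⌊b i j l * J⌋₊) A → D.Has X M A →
    Φ J F D (Pool.Agent.H49.Ent.cond F.p A True))

section fldx

variable {S : PCl m} {X : LabX m} {c : ℕ → Fin m} {n K K' s₁ : ℕ} {sh : ℕ → ℕ} {α ϖ ζ : ℝ}
  {M : ℕ} {e : ℕ → ℕ → ℝ} {b : ℕ → ℕ → ℕ → ℝ}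
  {Φ Ψ : (J : ℕ) → (F : Fam m J) → GDat F → (F.Ω → ℝ) → Prop}

theorem Fld.x (h : Fld S c n K K' s₁ sh α ϖ ζ M e b Φ) : FldX S X c n K K' s₁ sh α ϖ ζ M e b Φ :=
  Bas.mono 0 h fun _ _ _ _ hA D hD _ => hA D hD

theorem FldX.and (h : FldX S X c n K K' s₁ sh α ϖ ζ M e b Φ)
    (h' : FldX S X c n K K' s₁ sh α ϖ ζ M e b Ψ) :
    FldX S X c n K K' s₁ sh α ϖ ζ M e b (fun J F D q => Φ J F D q ∧ Ψ J F D q) :=
  Bas.mono 0 (Bas.and h h') fun _ _ _ _ hA D hD hX => ⟨hA.1 D hD hX, hA.2 D hD hX⟩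

theorem FldX.mono (J₂ : ℕ) (h : FldX S X c n K K' s₁ sh α ϖ ζ M e b Φ)
    (hΨ : ∀ J ≥ J₂, ∀ (F : Fam m J) (D : GDat F) (q : F.Ω → ℝ), Φ J F D q → Ψ J F D q) :
    FldX S X c n K K' s₁ sh α ϖ ζ M e b Ψ :=
  Bas.mono J₂ h fun J hJ F _ hA D hD hX => hΨ J hJ F D _ (hA D hD hX)

/-- A property of the family only. -/
theorem FldX.of_bas {Φ : (J : ℕ) → (F : Fam m J) → (F.Ω → ℝ) → Prop}
    (h : Bas S (fun J F A => Φ J F (Pool.Agent.H49.Ent.cond F.p A True))) :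
    FldX S X c n K K' s₁ sh α ϖ ζ M e b (fun J F _ q => Φ J F q) :=
  Bas.mono 0 h fun _ _ _ _ hA _ _ _ => hA

end fldx

/-- **The axioms of a cell, for a class**, labels with a property. -/
theorem asm_okx (n K K' s₁ : ℕ) (sh : ℕ → ℕ) (hK' : 1 ≤ K') : ∃ C₀ : ℝ, 0 ≤ C₀ ∧
    ∀ {m : ℕ} {S : PCl m} {X : LabX m} {M : ℕ} {c : ℕ → Fin m} {α ϖ ζ : ℝ}
    {e : ℕ → ℕ → ℝ} {b : ℕ → ℕ → ℕ → ℝ} {R : (J : ℕ) → Fam m J → ℕ → ℕ → Type}
    {ρ : (J : ℕ) → (F : Fam m J) → (i j : ℕ) → LnT F → R J F i j} {lam gam : ℕ → ℝ}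
    {κ k C₂ C₁ : ℝ}, 0 ≤ ϖ → 0 < ζ → ϖ + (M + 1) * ζ < α → α + (M + 1) * ζ < 1 → Inj c n →
    (∀ i ≤ M, ∀ j ≤ M, ∀ l < n, 0 < b i j l) → (∀ i ≤ M, ∀ j ≤ M, 0 ≤ e i j) →
    (∀ i ≤ M, ∀ j ≤ M, ∀ l < n - 1, b i j l + e i j + (M + 1) * ζ < 1) → 0 < k →
    C₀ ≤ C₁ → 2 * k + (M + 1) ^ 3 * k ≤ κ → C₂ + 1 + (M + 1) ^ 3 * k ≤ C₁ →
    (∃ J₁ : ℕ, ∀ J ≥ J₁, CDat2.Num2 n J (up α J) (up ϖ J) (up ζ J) M lam gam
      (fun i j l => ⌊b i j (l - 1) * J⌋₊ - sh l) C₁) →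
    Bas S (fun _ F A => 0 < Pe F.p A) →
    FldX S X c n K K' s₁ sh α ϖ ζ M e b (fun J F D q =>
      RcF F (ρ J F) (up ϖ J) (up ζ J) M (k * up ζ J) (C₂ * up ζ J) q ∧
      ValF D (ρ J F) (up ϖ J) (up ζ J) M (k * up ζ J) q ∧
      ExF F c n sh (ρ J F) (up ϖ J) (up ζ J) M (fun i j l => ⌊b i j l * J⌋₊)
        (k * up ζ J) q) →
    FldX S X c n K K' s₁ sh α ϖ ζ M e b (fun J F D q =>
      (D.nd c n sh (up ϖ J) (up ζ J) M (fun i j l => ⌊b i j l * J⌋₊) (ρ J F)).Ok2 n K' J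
        (up α J) (up ϖ J) (up ζ J) M lam gam κ C₁ q) := by
  obtain ⟨C₀, s₂, hC₀, hok⟩ := ok2_fam n K K' s₁ sh hK'
  refine ⟨C₀, hC₀, ?_⟩
  intro m S X M c α ϖ ζ e b R ρ lam gam κ k C₂ C₁ hϖ hζ hthin htop hc hb he hsz hk hC hκ hC₂ hN
    hpos hf
  obtain ⟨J₀, hN⟩ := hN
  obtain ⟨J₁, hev⟩ := grid_ev hϖ hζ hthin htop
  obtain ⟨J₂, hflo⟩ := flo_ev hb sh
  obtain ⟨J₃, hsi⟩ := siz_ev (n := n) hζ he (fun i hi j hj l hl => hb i hi j hj l (by omega)) hsz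
    s₂
  obtain ⟨J₄, hkz⟩ := kz_ev hk hζ C₀
  refine Bas.mono (max (max J₀ J₁) (max J₂ (max J₃ J₄))) (Bas.and hpos hf)
    fun J hJ F A hA D hD hDX => ?_
  obtain ⟨f1, f2⟩ := hA
  obtain ⟨g1, g2, g3⟩ := f2 D hD hDX
  have j0 : J₀ ≤ J := ((le_max_left _ _).trans (le_max_left _ _)).trans hJ
  have j1 : J₁ ≤ J := ((le_max_right _ _).trans (le_max_left _ _)).trans hJ
  have j2 : J₂ ≤ J := ((le_max_left _ _).trans (le_max_right _ _)).trans hJ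
  have j3 : J₃ ≤ J := ((le_max_left _ _).trans ((le_max_right _ _).trans
    (le_max_right _ _))).trans hJ
  have j4 : J₄ ≤ J := ((le_max_right _ _).trans ((le_max_right _ _).trans
    (le_max_right _ _))).trans hJ
  exact hok hD hc (hev J j1).2.2 hC hκ hC₂ (hkz J j4) (hN J j0)
    (fun i hi j hj l hl => hflo J j2 i hi j hj l (by omega)) (hsi J j3)
    (isLaw_cond F.isLaw f1) (fun ω hω => Pool.PB.End.of_cond_pos hω) g1 g2 g3

end CLO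

end Pool.STAT
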