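import Pool.Agent.H68.STAT.Fam2

/-!
# Contexts with records

`r i j` is the record at `(i, j)`: a function of the value at `(i, j)` which determines the value up
to few bits, such that the records at coarser indices have few bits given the record. Then the
context at `(i, j)` has few bits given the record, and the contexts at `(i + 1, j)` and
`(i + 1, j + 1)` have as many bits given the context at `(i, j)` as the records.
-/

set_option autoImplicit false

namespace Pool.STAT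

open Finset MvPolynomial
open Pool.Agent.H49.Ent Pool.Agent.H32.Dense Pool.STK Pool.KS3 Pool.KA Pool.KSAT Pool.PB

variable {m J n : ℕ}

namespace CDat2

variable {F : Fam m J}

/-- **Records**: `r i j` is a function of the value at `(i, j)`; the value has at most `k` bits
given the record and the window; the records at `(i, j)` and at the finer indices. -/
structure Rcs (C : CDat2 F n) (w₀ z M : ℕ) {R : ℕ → ℕ → Type} (r : (i j : ℕ) → F.Ω → R i j)
    (k C₂ : ℝ) (q : F.Ω → ℝ) : Prop where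
  com : ∀ i ≤ M, ∀ j ≤ M, Det q (C.val w₀ z i j) (r i j)
  val : ∀ i ≤ M, ∀ j ≤ M,
    CH q (C.val w₀ z i j) (fun ω => (r i j ω, F.T1 (w₀ + j * z) ω)) ≤ k
  dn : ∀ i < M, ∀ j ≤ M, CH q (r i j) (fun ω => (r (i + 1) j ω, F.T1 (w₀ + j * z) ω)) ≤ k
  dg : ∀ i < M, ∀ j < M,
    CH q (r i j) (fun ω => (r (i + 1) (j + 1) ω, F.T1 (w₀ + (j + 1) * z) ω)) ≤ k
  up : ∀ i < M, ∀ j ≤ M, CH q (r (i + 1) j) (fun ω => (r i j ω, F.T1 (w₀ + j * z) ω)) ≤ C₂
  ug : ∀ i < M, ∀ j < M,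
    CH q (r (i + 1) (j + 1)) (fun ω => (r i j ω, F.T1 (w₀ + j * z) ω)) ≤ C₂

section

variable {C : CDat2 F n} {w₀ z M : ℕ} {R : ℕ → ℕ → Type} {r : (i j : ℕ) → F.Ω → R i j}
  {k C₂ : ℝ} {q : F.Ω → ℝ}

/-- Composition of few bits. -/
theorem ch_comp {Ω A B C' D : Type} [Fintype Ω] {q : Ω → ℝ} (hq : ∀ ω, 0 ≤ q ω) {X : Ω → A}
    {Y : Ω → B} {W : Ω → C'} {W' : Ω → D} (h : Det q (fun ω => (Y ω, W ω)) W') :
    CH q X W ≤ CH q Y W + CH q X W' :=
  (CH_le_add hq X Y W).trans (add_le_add_right (CH_mono_cond hq h) _)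

theorem Rcs.k_nonneg (hq : IsLaw q) (h : Rcs C w₀ z M r k C₂ q) : 0 ≤ k :=
  (CH_nonneg hq.nonneg _ _).trans (h.val 0 (Nat.zero_le M) 0 (Nat.zero_le M))

/-- Along the diagonal. -/
theorem Rcs.diag (hq : IsLaw q) (h : Rcs C w₀ z M r k C₂ q) (hJ : w₀ + M * z ≤ J) {i j : ℕ}
    (hi : i ≤ M) (hj : j ≤ M) : ∀ a : ℕ, a ≤ i → a ≤ j →
    CH q (r (i - a) (j - a)) (fun ω => (r i j ω, F.T1 (w₀ + j * z) ω)) ≤ a * k := by
  intro a
  induction a with
  | zero =>
    intro _ _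
    rw [Nat.cast_zero, zero_mul]
    refine (CH_eq_zero hq.nonneg fun ω ω' _ _ e => ?_).le
    exact (Prod.ext_iff.mp e).1
  | succ a ih =>
    intro h1 h2
    have h3 := ih (by omega) (by omega)
    have h4 := h.dg (i - (a + 1)) (by omega) (j - (a + 1)) (by omega)
    have e1 : i - (a + 1) + 1 = i - a := by omega
    have e2 : j - (a + 1) + 1 = j - a := by omega
    rw [e1, e2] at h4
    have h5 : CH q (r (i - (a + 1)) (j - (a + 1))) (fun ω => (r i j ω, F.T1 (w₀ + j * z) ω)) ≤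
        CH q (r (i - a) (j - a)) (fun ω => (r i j ω, F.T1 (w₀ + j * z) ω)) +
        CH q (r (i - (a + 1)) (j - (a + 1)))
          (fun ω => (r (i - a) (j - a) ω, F.T1 (w₀ + (j - a) * z) ω)) := by
      refine ch_comp hq.nonneg fun ω ω' _ _ e => ?_
      simp only [Prod.mk.injEq] at e
      refine Prod.ext e.1 ?_
      exact T1_slam F (Nat.add_le_add_left (Nat.mul_le_mul_right z (Nat.sub_le j a)) w₀)
        ((Nat.add_le_add_left (Nat.mul_le_mul_right z hj) w₀).trans hJ) e.2.2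
    push_cast
    linarith

/-- The records of the cone. -/
theorem Rcs.cone (hq : IsLaw q) (h : Rcs C w₀ z M r k C₂ q) (hJ : w₀ + M * z ≤ J) {i j : ℕ}
    (hi : i ≤ M) (hj : j ≤ M) {a : ℕ} (ha : a ≤ j) : ∀ b : ℕ, a + b ≤ i →
    CH q (r (i - a - b) (j - a)) (fun ω => (r i j ω, F.T1 (w₀ + j * z) ω)) ≤
      ((a + b : ℕ) : ℝ) * k := by
  intro b
  induction b with
  | zero =>
    intro h1
    have h2 := h.diag hq hJ hi hj a (by omega) ha
    rw [Nat.sub_zero, Nat.add_zero]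
    exact h2
  | succ b ih =>
    intro h1
    have h3 := ih (by omega)
    have h4 := h.dn (i - a - (b + 1)) (by omega) (j - a) (by omega)
    have e1 : i - a - (b + 1) + 1 = i - a - b := by omega
    rw [e1] at h4
    have h5 : CH q (r (i - a - (b + 1)) (j - a)) (fun ω => (r i j ω, F.T1 (w₀ + j * z) ω)) ≤
        CH q (r (i - a - b) (j - a)) (fun ω => (r i j ω, F.T1 (w₀ + j * z) ω)) +
        CH q (r (i - a - (b + 1)) (j - a))
          (fun ω => (r (i - a - b) (j - a) ω, F.T1 (w₀ + (j - a) * z) ω)) := by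
      refine ch_comp hq.nonneg fun ω ω' _ _ e => ?_
      simp only [Prod.mk.injEq] at e
      refine Prod.ext e.1 ?_
      exact T1_slam F (Nat.add_le_add_left (Nat.mul_le_mul_right z (Nat.sub_le j a)) w₀)
        ((Nat.add_le_add_left (Nat.mul_le_mul_right z hj) w₀).trans hJ) e.2.2
    push_cast at h3 ⊢
    linarith

/-- The values of the cone. -/
theorem Rcs.vals (hq : IsLaw q) (h : Rcs C w₀ z M r k C₂ q) (hJ : w₀ + M * z ≤ J) {i j i' j' : ℕ}
    (hi : i ≤ M) (hj : j ≤ M) (hj' : j' ≤ j) (hi' : i' + j ≤ i + j') :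
    CH q (C.val w₀ z i' j') (fun ω => (r i j ω, F.T1 (w₀ + j * z) ω)) ≤ (M + 1) * k := by
  have hk := h.k_nonneg hq
  obtain ⟨a, ha⟩ : ∃ a, a = j - j' := ⟨_, rfl⟩
  obtain ⟨b, hb⟩ : ∃ b, b = i - a - i' := ⟨_, rfl⟩
  have h1 := h.cone hq hJ hi hj (a := a) (by omega) b (by omega)
  have e1 : i - a - b = i' := by omega
  have e2 : j - a = j' := by omega
  rw [e1, e2] at h1
  have h2 : CH q (C.val w₀ z i' j') (fun ω => (r i j ω, F.T1 (w₀ + j * z) ω)) ≤
      CH q (r i' j') (fun ω => (r i j ω, F.T1 (w₀ + j * z) ω)) +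
      CH q (C.val w₀ z i' j') (fun ω => (r i' j' ω, F.T1 (w₀ + j' * z) ω)) := by
    refine ch_comp hq.nonneg fun ω ω' _ _ e => ?_
    simp only [Prod.mk.injEq] at e
    refine Prod.ext e.1 ?_
    exact T1_slam F (Nat.add_le_add_left (Nat.mul_le_mul_right z hj') w₀)
      ((Nat.add_le_add_left (Nat.mul_le_mul_right z hj) w₀).trans hJ) e.2.2
  have h3 := h.val i' (by omega) j' (by omega)
  have h4 : ((a + b : ℕ) : ℝ) ≤ M := by
    have : a + b ≤ M := by omega
    exact_mod_cast this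
  nlinarith

/-- **The context has few bits given the record.** -/
theorem Rcs.ctx (hq : IsLaw q) (h : Rcs C w₀ z M r k C₂ q) (hJ : w₀ + M * z ≤ J) {i j : ℕ}
    (hi : i ≤ M) (hj : j ≤ M) {U : Type} (W : F.Ω → U) (hr : Det q W (r i j))
    (hT : Det q W (F.T1 (w₀ + j * z))) :
    CH q (C.lab2 w₀ z i j) W ≤ (M + 1) ^ 3 * k := by
  have h1 := C.lab2_le (M := M) hq W hi hj hT (ε := (M + 1) * k) fun i' _ j' hj' hij => by
    refine (CH_mono_cond hq.nonneg (W := fun ω => (r i j ω, F.T1 (w₀ + j * z) ω))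
      fun ω ω' a a' e => ?_).trans (h.vals hq hJ hi hj hj' hij)
    exact Prod.ext (hr ω ω' a a' e) (hT ω ω' a a' e)
  refine h1.trans (le_of_eq ?_)
  ring

/-- The context determines the record and the time to the digits of the window. -/
theorem Rcs.det (h : Rcs C w₀ z M r k C₂ q) {i j : ℕ} (hi : i ≤ M) (hj : j ≤ M) :
    Det q (C.lab2 w₀ z i j) (fun ω => (r i j ω, F.T1 (w₀ + j * z) ω)) := by
  intro ω ω' a a' e
  have h1 : C.val w₀ z i j ω = C.val w₀ z i j ω' := lab2_val C le_rfl le_rfl e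
  have h2 := h.com i hi j hj ω ω' a a' h1
  have h3 : F.T1 (w₀ + j * z) ω = F.T1 (w₀ + j * z) ω' := congrArg (·.2) e
  exact Prod.ext h2 h3

/-- **Few bits** of the context, from few bits of the record. -/
theorem Rcs.few (hq : IsLaw q) (h : Rcs C w₀ z M r k C₂ q) (hJ : w₀ + M * z ≤ J) {i j : ℕ}
    (hi : i ≤ M) (hj : j ≤ M) {U : Type} (W : F.Ω → U) (hT : Det q W (F.T1 (w₀ + j * z))) :
    CH q (C.lab2 w₀ z i j) W ≤ CH q (r i j) W + (M + 1) ^ 3 * k := by
  refine (CH_le_add hq.nonneg _ (r i j) W).trans (add_le_add_right ?_ _)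
  exact h.ctx hq hJ hi hj _ (fun ω ω' _ _ e => (Prod.ext_iff.mp e).1)
    (fun ω ω' a a' e => hT ω ω' a a' (Prod.ext_iff.mp e).2)

/-- **The field `i_few`.** -/
theorem Rcs.ifew (hq : IsLaw q) (h : Rcs C w₀ z M r k C₂ q) (hJ : w₀ + M * z ≤ J) {i j : ℕ}
    (hi : i < M) (hj : j ≤ M) :
    CH q (C.lab2 w₀ z (i + 1) j) (C.lab2 w₀ z i j) ≤ C₂ + (M + 1) ^ 3 * k := by
  have h1 := h.few hq hJ (i := i + 1) (by omega) hj (C.lab2 w₀ z i j)
    (fun ω ω' _ _ e => congrArg (·.2) e)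
  have h2 : CH q (r (i + 1) j) (C.lab2 w₀ z i j) ≤ C₂ :=
    (CH_mono_cond hq.nonneg (h.det hi.le hj)).trans (h.up i hi j hj)
  linarith

/-- The next digits of the time. -/
theorem T1_next (hq : IsLaw q) {w v : ℕ} (h : w + v ≤ J) :
    CH q (F.T1 (w + v)) (F.T1 w) ≤ v * Real.log 2 := by
  refine (CH_le_card hq.nonneg hq.sum_one (F.T1 (w + v)) (F.T1 w)
    (fun t => Finset.Ico (t * 2 ^ v) ((t + 1) * 2 ^ v)) fun ω _ => ?_).trans (le_of_eq ?_)
  · rw [Finset.mem_Ico, T1_div F h ω]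
    refine ⟨Nat.div_mul_le_self _ _, ?_⟩
    have := Nat.lt_div_mul_add (a := F.T1 (w + v) ω) (b := 2 ^ v) (by positivity)
    rw [Nat.add_mul, Nat.one_mul]
    exact this
  · have h1 : ∀ t : ℕ, (Finset.Ico (t * 2 ^ v) ((t + 1) * 2 ^ v)).card = 2 ^ v := by
      intro t
      rw [Nat.card_Ico, Nat.add_mul, Nat.one_mul, Nat.add_sub_cancel_left]
    simp only [h1]
    unfold Ex
    rw [← Finset.sum_mul, hq.sum_one, one_mul]
    push_cast
    rw [Real.log_pow]

/-- **The field `ij_few`.** -/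
theorem Rcs.ijfew (hq : IsLaw q) (h : Rcs C w₀ z M r k C₂ q) (hJ : w₀ + M * z ≤ J) {i j : ℕ}
    (hi : i < M) (hj : j < M) :
    CH q (C.lab2 w₀ z (i + 1) (j + 1)) (C.lab2 w₀ z i j) ≤
      C₂ + z * Real.log 2 + (M + 1) ^ 3 * k := by
  have hw : w₀ + j * z + z ≤ J := by
    have h1 : (j + 1) * z ≤ M * z := Nat.mul_le_mul_right z hj
    have h2 : (j + 1) * z = j * z + z := by ring
    omega
  have e1 : w₀ + (j + 1) * z = w₀ + j * z + z := by ring
  have h1 := CH_le_add hq.nonneg (C.lab2 w₀ z (i + 1) (j + 1))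
    (fun ω => (r (i + 1) (j + 1) ω, F.T1 (w₀ + (j + 1) * z) ω)) (C.lab2 w₀ z i j)
  have h2 : CH q (C.lab2 w₀ z (i + 1) (j + 1))
      (fun ω => ((r (i + 1) (j + 1) ω, F.T1 (w₀ + (j + 1) * z) ω), C.lab2 w₀ z i j ω)) ≤
      (M + 1) ^ 3 * k := by
    refine h.ctx hq hJ (i := i + 1) (j := j + 1) (by omega) (by omega) _ ?_ ?_
    · intro ω ω' _ _ e
      exact (Prod.ext_iff.mp (Prod.ext_iff.mp e).1).1
    · intro ω ω' _ _ e
      exact (Prod.ext_iff.mp (Prod.ext_iff.mp e).1).2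
  have h3 : CH q (fun ω => (r (i + 1) (j + 1) ω, F.T1 (w₀ + (j + 1) * z) ω))
      (C.lab2 w₀ z i j) ≤ C₂ + z * Real.log 2 := by
    refine (CH_subadd hq.nonneg _ _ _).trans (add_le_add ?_ ?_)
    · exact (CH_mono_cond hq.nonneg (h.det hi.le hj.le)).trans (h.ug i hi j hj)
    · rw [e1]
      exact (CH_mono_cond hq.nonneg fun ω ω' _ _ e => congrArg (·.2) e).trans
        (T1_next hq hw)
  linarith

/-- **Full given the context**, from full given the record. -/
theorem Rcs.full (hq : IsLaw q) (h : Rcs C w₀ z M r k C₂ q) (hJ : w₀ + M * z ≤ J) {i j : ℕ}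
    (hi : i ≤ M) (hj : j ≤ M) {A : Type} (v : F.Ω → A) :
    CH q v (fun ω => (r i j ω, F.T ω)) ≤
      CH q v (fun ω => (C.lab2 w₀ z i j ω, F.T ω)) + (M + 1) ^ 3 * k := by
  have h1 := CH_le_add hq.nonneg v (C.lab2 w₀ z i j) (fun ω => (r i j ω, F.T ω))
  have h2 : CH q v (fun ω => (C.lab2 w₀ z i j ω, (r i j ω, F.T ω))) ≤
      CH q v (fun ω => (C.lab2 w₀ z i j ω, F.T ω)) := by
    refine CH_mono_cond hq.nonneg fun ω ω' _ _ e => ?_
    simp only [Prod.mk.injEq] at e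
    exact Prod.ext e.1 e.2.2
  have h3 : CH q (C.lab2 w₀ z i j) (fun ω => (r i j ω, F.T ω)) ≤ (M + 1) ^ 3 * k := by
    refine h.ctx hq hJ hi hj _ ?_ ?_
    · intro ω ω' _ _ e
      exact (Prod.ext_iff.mp e).1
    · intro ω ω' _ _ e
      have e1 : F.T ω = F.T ω' := (Prod.ext_iff.mp e).2
      unfold Fam.T1
      rw [e1]
  linarith

end

end CDat2

end Pool.STAT
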