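import Pool.Agent.H40.MIC.Grd2N
import Pool.Agent.H40.MIC.Rec
import Pool.Agent.H35.K2S.Dich
import Pool.Agent.H18.PB.End
import Pool.Agent.H68.STAT.FulG

/-!
# The axioms of a cell, for a class

`asm_ok2`: records with their numbers, the values of the labels have few bits given the records,
and the base is exact to `J` digits given the records and the exact time, all for the events of a
class with small defect, give the axioms `Ok2` for every event of the class with labels at the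
grid.
-/

set_option autoImplicit false

namespace Pool.STAT

open Finset MvPolynomial
open Pool.Agent.H49.Ent Pool.Agent.H32.Dense Pool.STK Pool.KS3 Pool.KA Pool.KSAT Pool.PB Pool.GEN
open Pool.K2S Pool.S6C

variable {m J : ℕ}

namespace CLO

/-- The record at `(i, j)` of the sample. -/
def rcd {F : Fam m J} {R : ℕ → ℕ → Type} (ρ : (i j : ℕ) → LnT F → R i j) (w₀ z i j : ℕ)
    (ω : F.Ω) : R i j := ρ i j (slam F (w₀ + j * z) ω)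

/-- **The numbers of the records**: the records at coarser indices have few bits given the record,
the records at the finer indices have at most `C₂` bits. -/
structure RcF (F : Fam m J) {R : ℕ → ℕ → Type} (ρ : (i j : ℕ) → LnT F → R i j) (w₀ z M : ℕ)
    (k C₂ : ℝ) (q : F.Ω → ℝ) : Prop where
  dn : ∀ i < M, ∀ j ≤ M, CH q (rcd ρ w₀ z i j)
    (fun ω => (rcd ρ w₀ z (i + 1) j ω, F.T1 (w₀ + j * z) ω)) ≤ k
  dg : ∀ i < M, ∀ j < M, CH q (rcd ρ w₀ z i j)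
    (fun ω => (rcd ρ w₀ z (i + 1) (j + 1) ω, F.T1 (w₀ + (j + 1) * z) ω)) ≤ k
  up : ∀ i < M, ∀ j ≤ M, CH q (rcd ρ w₀ z (i + 1) j)
    (fun ω => (rcd ρ w₀ z i j ω, F.T1 (w₀ + j * z) ω)) ≤ C₂
  ug : ∀ i < M, ∀ j < M, CH q (rcd ρ w₀ z (i + 1) (j + 1))
    (fun ω => (rcd ρ w₀ z i j ω, F.T1 (w₀ + j * z) ω)) ≤ C₂

/-- The values of the labels have few bits given the records. -/
def ValF {F : Fam m J} (D : GDat F) {R : ℕ → ℕ → Type} (ρ : (i j : ℕ) → LnT F → R i j)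
    (w₀ z M : ℕ) (k : ℝ) (q : F.Ω → ℝ) : Prop :=
  ∀ i ≤ M, ∀ j ≤ M, CH q (fun ω => D.zL i j (slam F (w₀ + j * z) ω))
    (fun ω => (rcd ρ w₀ z i j ω, F.T1 (w₀ + j * z) ω)) ≤ k

/-- **The base is exact** to `J` digits given the records and the exact time, behind the
precisions `g i j l - sh (l + 1)`. -/
def ExF (F : Fam m J) (c : ℕ → Fin m) (n : ℕ) (sh : ℕ → ℕ) {R : ℕ → ℕ → Type}
    (ρ : (i j : ℕ) → LnT F → R i j) (w₀ z M : ℕ) (g : ℕ → ℕ → ℕ → ℕ) (k : ℝ)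
    (q : F.Ω → ℝ) : Prop :=
  ∀ i ≤ M, ∀ j ≤ M,
    (∑ l ∈ range (n - 1), ((J : ℝ) - (g i j l - sh (l + 1) : ℕ))) * Real.log 2 - k ≤
      CH q (fun ω (l : Fin (n - 1)) => ⌊(2 : ℝ) ^ J * F.x ω (c l)⌋)
        (fun ω => (rcd ρ w₀ z i j ω, F.T ω))

/-- The sizes: the gradients of the base labels are visible. -/
def SizF (n J z M s₂ : ℕ) (e : ℕ → ℕ → ℕ) (g : ℕ → ℕ → ℕ → ℕ) : Prop :=
  ∀ i ≤ M, ∀ j ≤ M, ∀ l < n - 1, (range (l + 1)).sup (g i j) + e i j + M * z + s₂ ≤ J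

/-- The records of the cell. -/
theorem rcs_of {F : Fam m J} {D : GDat F} {n : ℕ} {R : ℕ → ℕ → Type}
    {ρ : (i j : ℕ) → LnT F → R i j} {w₀ z M : ℕ} {k C₂ : ℝ} {q : F.Ω → ℝ} (hq : IsLaw q)
    (h : RcF F ρ w₀ z M k C₂ q) (hv : ValF D ρ w₀ z M k q) :
    CDat2.Rcs (D.cd n ρ) w₀ z M (rcd ρ w₀ z) k C₂ q where
  com i hi j hj ω ω' _ _ e := congrArg Prod.snd e
  val i hi j hj := by
    refine (CH_mono_left hq.nonneg fun ω ω' _ _ e => ?_).trans (hv i hi j hj)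
    simp only [Prod.mk.injEq] at e
    exact Prod.ext e.1 e.2.1
  dn := h.dn
  dg := h.dg
  up := h.up
  ug := h.ug

/-- **The axioms `Ok2` for one family.** -/
theorem ok2_fam (n K K' s₁ : ℕ) (sh : ℕ → ℕ) (hK' : 1 ≤ K') : ∃ (C₀ : ℝ) (s₂ : ℕ), 0 ≤ C₀ ∧
    ∀ {m J : ℕ} {F : Fam m J} {D : GDat F}
    {c : ℕ → Fin m} {a₀ w₀ z M : ℕ} {e : ℕ → ℕ → ℕ} {g : ℕ → ℕ → ℕ → ℕ}
    {B : F.Ω → Prop} {R : ℕ → ℕ → Type} {ρ : (i j : ℕ) → LnT F → R i j} {lam gam : ℕ → ℝ}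
    {κ k C₂ C₁ : ℝ}, D.Ok c n K K' s₁ sh a₀ w₀ z M e g B → Inj c n → 1 ≤ z → C₀ ≤ C₁ →
    2 * k + (M + 1) ^ 3 * k ≤ κ → C₂ + 1 + (M + 1) ^ 3 * k ≤ C₁ → C₀ ≤ k * z →
    CDat2.Num2 n J a₀ w₀ z M lam gam (fun i j l => g i j (l - 1) - sh l) C₁ →
    (∀ i ≤ M, ∀ j ≤ M, ∀ l < n - 1, sh (l + 1) ≤ g i j l) → SizF n J z M s₂ e g →
    ∀ {q : F.Ω → ℝ}, IsLaw q → (∀ ω, 0 < q ω → B ω) →
    RcF F ρ w₀ z M (k * z) (C₂ * z) q → ValF D ρ w₀ z M (k * z) q →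
    ExF F c n sh ρ w₀ z M g (k * z) q →
    (D.nd c n sh w₀ z M g ρ).Ok2 n K' J a₀ w₀ z M lam gam κ C₁ q := by
  obtain ⟨C₀, hC₀, hok⟩ := GDat.ok2 n K' s₁
  obtain ⟨L, s₂, hL, hful⟩ := full_gdat n K K' s₁ sh hK'
  refine ⟨max C₀ (((n - 1 : ℕ) : ℝ) * Real.log (5 + 2 * L)), s₂, hC₀.trans (le_max_left _ _), ?_⟩
  intro m J F D c a₀ w₀ z M e g B R ρ lam gam κ k C₂ C₁ hD hc hz hC hκ hC₂ hkz hN hsh hsz q hq
    hB hr hv hx
  have hz0 : (0 : ℝ) ≤ z := Nat.cast_nonneg z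
  have hJ : w₀ + M * z ≤ J := by
    have h1 := hN.thin
    have h2 := hN.top
    have h3 : (M + 1) * z = M * z + z := by ring
    omega
  have hJa : a₀ + M * z ≤ J := by
    have h2 := hN.top
    have h3 : (M + 1) * z = M * z + z := by ring
    omega
  have hR := rcs_of (n := n) hq hr hv
  have hk0 := hR.k_nonneg hq
  have hl2 : Real.log 2 ≤ 1 := by
    have := Real.log_two_lt_d9
    linarith
  have m1 : (C₂ + 1 + (M + 1) ^ 3 * k) * (z : ℝ) ≤ C₁ * z := mul_le_mul_of_nonneg_right hC₂ hz0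
  have m2 : (2 * k + (M + 1) ^ 3 * k) * (z : ℝ) ≤ κ * z := mul_le_mul_of_nonneg_right hκ hz0
  have m3 : (z : ℝ) * Real.log 2 ≤ z := by nlinarith
  have m4 : (z : ℝ) * Real.log 2 ≥ 0 := by
    have := Real.log_pos (by norm_num : (1 : ℝ) < 2)
    positivity
  have m5 : ((n - 1 : ℕ) : ℝ) * Real.log (5 + 2 * L) ≤ k * z := (le_max_right _ _).trans hkz
  refine hok ρ hK' hD hz ((le_max_left _ _).trans hC) hN hq hB (fun i hi j hj => ?_)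
    (fun i hi j hj => ?_) fun i hi j hj U hU => ?_
  · have h1 := hR.ifew hq hJ hi hj
    nlinarith
  · have h1 := hR.ijfew hq hJ hi hj
    nlinarith
  · have h1 := hR.full hq hJ hi hj (fun ω (l : Fin (n - 1)) => ⌊(2 : ℝ) ^ J * F.x ω (c l)⌋)
    have h2 := hx i hi j hj
    have h3 : ∀ l < n - 1, g i j l ≤ (range (l + 1)).sup (g i j) := fun l _ =>
      Finset.le_sup (f := g i j) (mem_range.2 (by omega))
    have hUM : U * z ≤ M * z := Nat.mul_le_mul_right z (by omega)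
    have h4 := hful hD hc hJa hq hB i hi j hj
      (fun l => e i j + ((range (l + 1)).sup (g i j) - g i j l)) (U * z) (hsh i hi j hj)
      (fun l _ k hk => by
        unfold nlp
        have h5 : (Finset.Icc k l).sup (g i j) ≤ (range (l + 1)).sup (g i j) := by
          refine Finset.sup_mono fun x hx => ?_
          rw [Finset.mem_Icc] at hx
          exact mem_range.2 (by omega)
        omega) (fun l hl => by
        have h5 := h3 l hl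
        have h6 := hsz i hi j hj l hl
        omega) (fun ω => ((D.cd n ρ).lab2 w₀ z i j ω, F.T ω)) (fun ω ω' _ _ e' => by
        simp only [Prod.mk.injEq] at e'
        have h5 := CDat2.lab2_val (D.cd n ρ) (i' := i) (j' := j) le_rfl le_rfl e'.1
        exact Prod.ext (congrArg (fun v : LV × R i j => v.1) h5) e'.2) (k * z + (M + 1) ^ 3 * (k * z))
      (by linarith)
    have h5 : CH q ((D.nd c n sh w₀ z M g ρ).vd n i j (U * z))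
        (fun ω => ((D.cd n ρ).lab2 w₀ z i j ω, F.T ω)) =
        CH q (fun ω (l : Fin (n - 1)) => ⌊(2 : ℝ) ^ (g i j (l + 1 - 1) - sh (l + 1) + U * z) *
        (cx F (fun i => c (i - 1)) ω (l + 1) - eval (cx F (fun i => c (i - 1)) ω)
          (D.PS i j (D.zS i j (ptr F J ω)) (l + 1)))⌋)
        (fun ω => ((D.cd n ρ).lab2 w₀ z i j ω, F.T ω)) := by
      congr 1
      funext ω l
      exact CDat2.nd2_vd _ _ _ _ _ _ _ hi hj ω l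
    rw [h5]
    rw [Nat.cast_mul] at h4
    have h6 : (2 * k + (M + 1) ^ 3 * k) * (z : ℝ) =
        (k * z + (M + 1) ^ 3 * (k * z)) + k * z := by ring
    have h7 : ((n - 1 : ℕ) : ℝ) * (U * z) * Real.log 2 =
        ((n - 1 : ℕ) : ℝ) * ((U * z) * Real.log 2) := by ring
    rw [h6] at m2
    rw [h7]
    linarith

/-- A property of the labels at the real grid, for the laws conditioned on the events of a class
with small defect. -/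
def Fld (S : PCl m) (c : ℕ → Fin m) (n K K' s₁ : ℕ) (sh : ℕ → ℕ) (α ϖ ζ : ℝ) (M : ℕ)
    (e : ℕ → ℕ → ℝ) (b : ℕ → ℕ → ℕ → ℝ)
    (Φ : (J : ℕ) → (F : Fam m J) → GDat F → (F.Ω → ℝ) → Prop) : Prop :=
  Bas S (fun J F A => ∀ D : GDat F, D.Ok c n K K' s₁ sh (up α J) (up ϖ J) (up ζ J) M
    (fun i j => ⌊e i j * J⌋₊) (fun i j l => ⌊b i j l * J⌋₊) A →
    Φ J F D (Pool.Agent.H49.Ent.cond F.p A True))

theorem Fld.and {S : PCl m} {c : ℕ → Fin m} {n K K' s₁ : ℕ} {sh : ℕ → ℕ} {α ϖ ζ : ℝ} {M : ℕ}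
    {e : ℕ → ℕ → ℝ} {b : ℕ → ℕ → ℕ → ℝ}
    {Φ Ψ : (J : ℕ) → (F : Fam m J) → GDat F → (F.Ω → ℝ) → Prop}
    (h : Fld S c n K K' s₁ sh α ϖ ζ M e b Φ) (h' : Fld S c n K K' s₁ sh α ϖ ζ M e b Ψ) :
    Fld S c n K K' s₁ sh α ϖ ζ M e b (fun J F D q => Φ J F D q ∧ Ψ J F D q) :=
  Bas.mono 0 (Bas.and h h') fun _ _ _ _ hA D hD => ⟨hA.1 D hD, hA.2 D hD⟩

theorem Fld.mono {S : PCl m} {c : ℕ → Fin m} {n K K' s₁ : ℕ} {sh : ℕ → ℕ} {α ϖ ζ : ℝ} {M : ℕ}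
    {e : ℕ → ℕ → ℝ} {b : ℕ → ℕ → ℕ → ℝ}
    {Φ Ψ : (J : ℕ) → (F : Fam m J) → GDat F → (F.Ω → ℝ) → Prop} (J₂ : ℕ)
    (h : Fld S c n K K' s₁ sh α ϖ ζ M e b Φ)
    (hΨ : ∀ J ≥ J₂, ∀ (F : Fam m J) (D : GDat F) (q : F.Ω → ℝ), Φ J F D q → Ψ J F D q) :
    Fld S c n K K' s₁ sh α ϖ ζ M e b Ψ :=
  Bas.mono J₂ h fun J hJ F _ hA D hD => hΨ J hJ F D _ (hA D hD)

/-- A property of the family only. -/
theorem Fld.of_bas {S : PCl m} {c : ℕ → Fin m} {n K K' s₁ : ℕ} {sh : ℕ → ℕ} {α ϖ ζ : ℝ} {M : ℕ}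
    {e : ℕ → ℕ → ℝ} {b : ℕ → ℕ → ℕ → ℝ} {Φ : (J : ℕ) → (F : Fam m J) → (F.Ω → ℝ) → Prop}
    (h : Bas S (fun J F A => Φ J F (Pool.Agent.H49.Ent.cond F.p A True))) :
    Fld S c n K K' s₁ sh α ϖ ζ M e b (fun J F _ q => Φ J F q) :=
  Bas.mono 0 h fun _ _ _ _ hA _ _ => hA

/-- A constant is at most an exponential. -/
theorem exp_ev {τ : ℝ} (hτ : 0 < τ) (x : ℝ) : ∃ J₁ : ℕ, ∀ J ≥ J₁, x ≤ Real.exp (τ * J) := by
  obtain ⟨J₁, h⟩ := exists_nat_gt (x / τ)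
  refine ⟨J₁, fun J hJ => ?_⟩
  have h1 : (J₁ : ℝ) ≤ J := by exact_mod_cast hJ
  rw [div_lt_iff₀ hτ] at h
  have h2 := Real.add_one_le_exp (τ * J)
  nlinarith

/-- **Properties of the labels on an event of `grid_cd2`**: they hold for the laws conditioned on
all the large events of the event `B`. -/
theorem Fld.use {S : PCl m} {c : ℕ → Fin m} {n K K' s₁ : ℕ} {sh : ℕ → ℕ} {α ϖ ζ : ℝ} {M : ℕ}
    {e : ℕ → ℕ → ℝ} {b : ℕ → ℕ → ℕ → ℝ}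
    {Φ : (J : ℕ) → (F : Fam m J) → GDat F → (F.Ω → ℝ) → Prop} {c₁ : ℝ}
    (hg : Bas S (fun J F A => ∃ (D : GDat F) (B : F.Ω → Prop), Sub B A ∧
      Pe F.p A ≤ c₁ * Pe F.p B ∧ D.Ok c n K K' s₁ sh (up α J) (up ϖ J) (up ζ J) M
        (fun i j => ⌊e i j * J⌋₊) (fun i j l => ⌊b i j l * J⌋₊) B))
    (h : Fld S c n K K' s₁ sh α ϖ ζ M e b Φ) : ∃ τ₀ : ℝ, 0 < τ₀ ∧
    Bas S (fun J F A => ∃ (D : GDat F) (B : F.Ω → Prop), Sub B A ∧
      Pe F.p A ≤ c₁ * Pe F.p B ∧ D.Ok c n K K' s₁ sh (up α J) (up ϖ J) (up ζ J) M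
        (fun i j => ⌊e i j * J⌋₊) (fun i j l => ⌊b i j l * J⌋₊) B ∧
      ∀ B' : F.Ω → Prop, Sub B' B → Real.exp (-(τ₀ * J)) * Pe F.p B ≤ Pe F.p B' →
        Φ J F D (Pool.Agent.H49.Ent.cond F.p B' True)) := by
  obtain ⟨τ₁, hτ₁, J₁, h1⟩ := h
  obtain ⟨τ₂, hτ₂, J₂, h2⟩ := hg
  obtain ⟨J₃, h3⟩ := exp_ev (τ := τ₁ / 3) (by positivity) c₁
  refine ⟨τ₁ / 3, by positivity, min (τ₁ / 3) τ₂, lt_min (by positivity) hτ₂,
    max J₁ (max J₂ J₃), fun J hJ F A hA => ?_⟩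
  have j1 : J₁ ≤ J := (le_max_left _ _).trans hJ
  have j2 : J₂ ≤ J := ((le_max_left _ _).trans (le_max_right _ _)).trans hJ
  have j3 : J₃ ≤ J := ((le_max_right _ _).trans (le_max_right _ _)).trans hJ
  obtain ⟨D, B, hBA, hPe, hD⟩ := h2 J j2 F A (S.mono (min_le_right _ _) hA)
  refine ⟨D, B, hBA, hPe, hD, fun B' hB' hP => ?_⟩
  have hA1 : S.St (τ₁ / 3) J F A := S.mono (min_le_left _ _) hA
  have hB1 : S.St (τ₁ / 3 + τ₁ / 3) J F B := by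
    refine S.res (by positivity) hA1 hBA ?_
    have h5 : Pe F.p A ≤ Real.exp (τ₁ / 3 * J) * Pe F.p B :=
      hPe.trans (mul_le_mul_of_nonneg_right (h3 J j3) (Pe_nonneg F.isLaw _))
    calc Real.exp (-(τ₁ / 3 * J)) * Pe F.p A ≤
          Real.exp (-(τ₁ / 3 * J)) * (Real.exp (τ₁ / 3 * J) * Pe F.p B) :=
          mul_le_mul_of_nonneg_left h5 (Real.exp_pos _).le
      _ = Pe F.p B := by
          rw [← mul_assoc, ← Real.exp_add, neg_add_cancel, Real.exp_zero, one_mul]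
  have hB2 : S.St τ₁ J F B' := by
    refine S.mono ?_ (S.res (τ' := τ₁ / 3) (by positivity) hB1 hB' hP)
    linarith
  exact h1 J j1 F B' hB2 D (hD.sub hB')

/-- The sizes for large `J`. -/
theorem siz_ev {n M : ℕ} {ζ : ℝ} (hζ : 0 < ζ) {e : ℕ → ℕ → ℝ} {b : ℕ → ℕ → ℕ → ℝ}
    (he : ∀ i ≤ M, ∀ j ≤ M, 0 ≤ e i j) (hb : ∀ i ≤ M, ∀ j ≤ M, ∀ l < n - 1, 0 < b i j l)
    (h : ∀ i ≤ M, ∀ j ≤ M, ∀ l < n - 1, b i j l + e i j + (M + 1) * ζ < 1) (s₂ : ℕ) :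
    ∃ J₁ : ℕ, ∀ J ≥ J₁, SizF n J (up ζ J) M s₂ (fun i j => ⌊e i j * J⌋₊)
      (fun i j l => ⌊b i j l * J⌋₊) := by
  have h1 : ∀ i j l, ∃ J₁ : ℕ, i ≤ M → j ≤ M → l < n - 1 → ∀ J ≥ J₁,
      ⌊b i j l * J⌋₊ + ⌊e i j * J⌋₊ + M * up ζ J + s₂ ≤ J := by
    intro i j l
    by_cases hij : i ≤ M ∧ j ≤ M ∧ l < n - 1
    · obtain ⟨hi, hj, hl⟩ := hij
      have h2 := h i hi j hj l hl
      obtain ⟨J₁, hJ₁⟩ := exists_nat_gt ((M + s₂ : ℝ) / (1 - (b i j l + e i j + M * ζ)))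
      refine ⟨J₁, fun _ _ _ J hJ => ?_⟩
      have h3 : (J₁ : ℝ) ≤ J := by exact_mod_cast hJ
      have h4 : (0 : ℝ) < 1 - (b i j l + e i j + M * ζ) := by nlinarith
      rw [div_lt_iff₀ h4] at hJ₁
      have hJ0 : (0 : ℝ) ≤ J := Nat.cast_nonneg J
      have h5 : ((⌊b i j l * J⌋₊ : ℕ) : ℝ) ≤ b i j l * J :=
        Nat.floor_le (mul_nonneg (hb i hi j hj l hl).le hJ0)
      have h6 : ((⌊e i j * J⌋₊ : ℕ) : ℝ) ≤ e i j * J :=
        Nat.floor_le (mul_nonneg (he i hi j hj) hJ0)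
      have h7 := up_le hζ.le J
      have h8 : (M : ℝ) * up ζ J ≤ M * (ζ * J + 1) :=
        mul_le_mul_of_nonneg_left h7 (Nat.cast_nonneg M)
      have h9 : ((⌊b i j l * J⌋₊ + ⌊e i j * J⌋₊ + M * up ζ J + s₂ : ℕ) : ℝ) ≤ J := by
        push_cast
        nlinarith
      exact_mod_cast h9
    · exact ⟨0, fun hi hj hl => absurd ⟨hi, hj, hl⟩ hij⟩
  choose f hf using h1
  refine ⟨∑ i ∈ range (M + 1), ∑ j ∈ range (M + 1), ∑ l ∈ range n, f i j l,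
    fun J hJ i hi j hj l hl => ?_⟩
  have key : ∀ x < n - 1, ⌊b i j x * J⌋₊ + ⌊e i j * J⌋₊ + M * up ζ J + s₂ ≤ J := by
    intro x hx
    refine hf i j x hi hj hx J (le_trans ?_ hJ)
    refine le_trans ?_ (Finset.single_le_sum (f := fun i => ∑ j ∈ range (M + 1),
      ∑ l ∈ range n, f i j l) (fun _ _ => Nat.zero_le _) (mem_range.2 (by omega : i < M + 1)))
    refine le_trans ?_ (Finset.single_le_sum (f := fun j => ∑ l ∈ range n, f i j l)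
      (fun _ _ => Nat.zero_le _) (mem_range.2 (by omega : j < M + 1)))
    exact Finset.single_le_sum (f := fun l => f i j l) (fun _ _ => Nat.zero_le _)
      (mem_range.2 (by omega))
  have h2 : (range (l + 1)).sup (fun l => ⌊b i j l * J⌋₊) ≤
      J - (⌊e i j * J⌋₊ + M * up ζ J + s₂) := by
    refine Finset.sup_le fun x hx => ?_
    rw [mem_range] at hx
    have := key x (by omega)
    omega
  have h3 := key l hl
  show (range (l + 1)).sup (fun l => ⌊b i j l * J⌋₊) + ⌊e i j * J⌋₊ + M * up ζ J + s₂ ≤ J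
  omega

/-- A constant is at most `k z` for large `J`. -/
theorem kz_ev {k ζ : ℝ} (hk : 0 < k) (hζ : 0 < ζ) (x : ℝ) :
    ∃ J₁ : ℕ, ∀ J ≥ J₁, x ≤ k * up ζ J := by
  obtain ⟨J₁, h⟩ := exists_nat_gt (x / (k * ζ))
  refine ⟨J₁, fun J hJ => ?_⟩
  have h1 : (J₁ : ℝ) ≤ J := by exact_mod_cast hJ
  have h0 : 0 < k * ζ := by positivity
  rw [div_lt_iff₀ h0] at h
  have h2 := up_ge ζ J
  have h3 : k * (ζ * J) ≤ k * up ζ J := mul_le_mul_of_nonneg_left h2 hk.le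
  nlinarith

/-- **The axioms of a cell, for a class.** -/
theorem asm_ok2 (n K K' s₁ : ℕ) (sh : ℕ → ℕ) (hK' : 1 ≤ K') : ∃ C₀ : ℝ, 0 ≤ C₀ ∧
    ∀ {m : ℕ} {S : PCl m} {M : ℕ} {c : ℕ → Fin m} {α ϖ ζ : ℝ}
    {e : ℕ → ℕ → ℝ} {b : ℕ → ℕ → ℕ → ℝ} {R : (J : ℕ) → Fam m J → ℕ → ℕ → Type}
    {ρ : (J : ℕ) → (F : Fam m J) → (i j : ℕ) → LnT F → R J F i j} {lam gam : ℕ → ℝ}
    {κ k C₂ C₁ : ℝ}, 0 ≤ ϖ → 0 < ζ → ϖ + (M + 1) * ζ < α → α + (M + 1) * ζ < 1 → Inj c n →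
    (∀ i ≤ M, ∀ j ≤ M, ∀ l < n, 0 < b i j l) → (∀ i ≤ M, ∀ j ≤ M, 0 ≤ e i j) →
    (∀ i ≤ M, ∀ j ≤ M, ∀ l < n - 1, b i j l + e i j + (M + 1) * ζ < 1) → 0 < k →
    C₀ ≤ C₁ → 2 * k + (M + 1) ^ 3 * k ≤ κ → C₂ + 1 + (M + 1) ^ 3 * k ≤ C₁ →
    (∃ J₁ : ℕ, ∀ J ≥ J₁, CDat2.Num2 n J (up α J) (up ϖ J) (up ζ J) M lam gam
      (fun i j l => ⌊b i j (l - 1) * J⌋₊ - sh l) C₁) →
    Bas S (fun _ F A => 0 < Pe F.p A) →
    Bas S (fun J F A => RcF F (ρ J F) (up ϖ J) (up ζ J) M (k * up ζ J) (C₂ * up ζ J)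
      (Pool.Agent.H49.Ent.cond F.p A True)) →
    Fld S c n K K' s₁ sh α ϖ ζ M e b (fun J F D q =>
      ValF D (ρ J F) (up ϖ J) (up ζ J) M (k * up ζ J) q) →
    Bas S (fun J F A => ExF F c n sh (ρ J F) (up ϖ J) (up ζ J) M (fun i j l => ⌊b i j l * J⌋₊)
      (k * up ζ J) (Pool.Agent.H49.Ent.cond F.p A True)) →
    Fld S c n K K' s₁ sh α ϖ ζ M e b (fun J F D q =>
      (D.nd c n sh (up ϖ J) (up ζ J) M (fun i j l => ⌊b i j l * J⌋₊) (ρ J F)).Ok2 n K' J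
        (up α J) (up ϖ J) (up ζ J) M lam gam κ C₁ q) := by
  obtain ⟨C₀, s₂, hC₀, hok⟩ := ok2_fam n K K' s₁ sh hK'
  refine ⟨C₀, hC₀, ?_⟩
  intro m S M c α ϖ ζ e b R ρ lam gam κ k C₂ C₁ hϖ hζ hthin htop hc hb he hsz hk hC hκ hC₂ hN
    hpos hr hv hx
  obtain ⟨J₀, hN⟩ := hN
  obtain ⟨J₁, hev⟩ := grid_ev hϖ hζ hthin htop
  obtain ⟨J₂, hflo⟩ := flo_ev hb sh
  obtain ⟨J₃, hsi⟩ := siz_ev (n := n) hζ he (fun i hi j hj l hl => hb i hi j hj l (by omega)) hsz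
    s₂
  obtain ⟨J₄, hkz⟩ := kz_ev hk hζ C₀
  refine Bas.mono (max (max J₀ J₁) (max J₂ (max J₃ J₄))) (Bas.and hpos (Bas.and hr (Bas.and hv hx)))
    fun J hJ F A hA D hD => ?_
  obtain ⟨f1, f2, f3, f4⟩ := hA
  have j0 : J₀ ≤ J := ((le_max_left _ _).trans (le_max_left _ _)).trans hJ
  have j1 : J₁ ≤ J := ((le_max_right _ _).trans (le_max_left _ _)).trans hJ
  have j2 : J₂ ≤ J := ((le_max_left _ _).trans (le_max_right _ _)).trans hJ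
  have j3 : J₃ ≤ J := ((le_max_left _ _).trans ((le_max_right _ _).trans
    (le_max_right _ _))).trans hJ
  have j4 : J₄ ≤ J := ((le_max_right _ _).trans ((le_max_right _ _).trans
    (le_max_right _ _))).trans hJ
  exact hok hD hc (hev J j1).2.2 hC hκ hC₂ (hkz J j4) (hN J j0)
    (fun i hi j hj l hl => hflo J j2 i hi j hj l (by omega)) (hsi J j3)
    (isLaw_cond F.isLaw f1) (fun ω hω => Pool.PB.End.of_cond_pos hω) f2 (f3 D hD) f4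

end CLO

end Pool.STAT
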