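import Pool.Agent.H40.MIC.CD2
import Pool.Agent.H60.ZCL.BTail

/-!
# The grid of a real cell

`grid_cd2`: chains of two-sided labels with real exponents at the radii `α + i ζ` and the windows
`ϖ + j ζ`, `i, j ≤ M`, for all events of a class with small defect, give the exact labels of `cd2`
at the radii `a₀ + i z` and the windows `w₀ + j z`, where `a₀`, `w₀`, `z` are the upper integer parts
of `α J`, `ϖ J`, `ζ J`.
-/

set_option autoImplicit false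

namespace Pool.STAT

open Finset MvPolynomial
open Pool.Agent.H49.Ent Pool.Agent.H32.Dense Pool.STK Pool.KS3 Pool.KA Pool.KSAT Pool.PB Pool.GEN
open Pool.K2S Pool.S6C

variable {m J : ℕ}

namespace CLO

/-- The upper integer part of a real exponent. -/
noncomputable def up (x : ℝ) (J : ℕ) : ℕ := ⌈x * J⌉₊

theorem up_ge (x : ℝ) (J : ℕ) : x * J ≤ up x J := Nat.le_ceil _

theorem up_le {x : ℝ} (hx : 0 ≤ x) (J : ℕ) : (up x J : ℝ) ≤ x * J + 1 :=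
  (Nat.ceil_lt_add_one (by positivity)).le

/-- The integer points of the grid are beyond the real ones. -/
theorem flo_grid {x ζ : ℝ} (i J : ℕ) : ⌊(x + i * ζ) * J⌋₊ ≤ up x J + i * up ζ J := by
  refine Nat.floor_le_of_le ?_
  push_cast
  have h1 := up_ge x J
  have h2 := up_ge ζ J
  have h3 : (i : ℝ) * (ζ * J) ≤ i * up ζ J := mul_le_mul_of_nonneg_left h2 (Nat.cast_nonneg i)
  nlinarith

/-- For large `J`: the integer windows are longer than the integer radii. -/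
theorem grid_ev {α ϖ ζ : ℝ} {M : ℕ} (hϖ : 0 ≤ ϖ) (hζ : 0 < ζ) (hthin : ϖ + (M + 1) * ζ < α)
    (htop : α + (M + 1) * ζ < 1) : ∃ J₁ : ℕ, ∀ J ≥ J₁,
      up ϖ J + (M + 1) * up ζ J ≤ up α J ∧ up α J + (M + 1) * up ζ J ≤ J ∧ 1 ≤ up ζ J := by
  have hα : 0 ≤ α := by
    have : (0 : ℝ) ≤ (M + 1) * ζ := by positivity
    linarith
  obtain ⟨J₂, h2⟩ := exists_nat_gt ((M + 2) / (α - (ϖ + (M + 1) * ζ)) : ℝ)
  obtain ⟨J₃, h3⟩ := exists_nat_gt ((M + 2) / (1 - (α + (M + 1) * ζ)) : ℝ)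
  refine ⟨max (max J₂ J₃) 1, fun J hJ => ?_⟩
  have e2 : (M + 2 : ℝ) < J * (α - (ϖ + (M + 1) * ζ)) := by
    rw [div_lt_iff₀ (by linarith)] at h2
    have h4 : (J₂ : ℝ) ≤ J := by exact_mod_cast (le_max_left _ _).trans ((le_max_left _ _).trans hJ)
    have h5 : (0 : ℝ) < α - (ϖ + (M + 1) * ζ) := by linarith
    nlinarith
  have e3 : (M + 2 : ℝ) < J * (1 - (α + (M + 1) * ζ)) := by
    rw [div_lt_iff₀ (by linarith)] at h3
    have h4 : (J₃ : ℝ) ≤ J := by exact_mod_cast (le_max_right _ _).trans ((le_max_left _ _).trans hJ)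
    have h5 : (0 : ℝ) < 1 - (α + (M + 1) * ζ) := by linarith
    nlinarith
  have u1 := up_le hϖ J
  have u2 := up_le hζ.le J
  have u3 := up_ge α J
  have u4 := up_le hα J
  have hM : (0 : ℝ) ≤ M + 1 := by positivity
  have u5 : ((M : ℝ) + 1) * up ζ J ≤ (M + 1) * (ζ * J + 1) := mul_le_mul_of_nonneg_left u2 hM
  refine ⟨?_, ?_, ?_⟩
  · have : ((up ϖ J + (M + 1) * up ζ J : ℕ) : ℝ) ≤ up α J := by
      push_cast
      nlinarith
    exact_mod_cast this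
  · have : ((up α J + (M + 1) * up ζ J : ℕ) : ℝ) ≤ J := by
      push_cast
      nlinarith
    exact_mod_cast this
  · refine Nat.one_le_ceil_iff.2 ?_
    have h6 : (1 : ℝ) ≤ J := by exact_mod_cast (le_max_right _ _).trans hJ
    positivity

/-- The data at the grid: chains `G i j`, `H i j`, the values `zL`, `zS` and their polynomials. -/
structure GDat (F : Fam m J) : Type where
  /-- the point side of the chains -/
  G : ℕ → ℕ → PtT F → ℕ → MvPolynomial (Option (Fin m)) ℝ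
  /-- the line side of the chains -/
  H : ℕ → ℕ → LnT F → ℕ → MvPolynomial (Option (Fin m)) ℝ
  /-- the values of the lines in windows -/
  zL : ℕ → ℕ → LnT F → LV
  /-- the polynomials of the values -/
  PL : ℕ → ℕ → LV → ℕ → PN
  /-- the labels at the points -/
  zS : ℕ → ℕ → PtT F → LV
  /-- the labels at the points, as functions of the values and of the time -/
  zS' : ℕ → ℕ → LV → ℝ → LV
  /-- the polynomials of the labels at the points -/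
  PS : ℕ → ℕ → LV → ℕ → PN

/-- The labels as a cell, with any values `ρ` of the line and of the window. -/
noncomputable def GDat.cd {F : Fam m J} (D : GDat F) (n : ℕ) {R : ℕ → ℕ → Type}
    (ρ : (i j : ℕ) → LnT F → R i j) : CDat2 F n := cdt F n ρ D.zL D.PL D.zS D.PS

/-- **The conditions at the grid**: chains of class `K`, radii `a₀ + i z`, windows `w₀ + j z`, sides
`g i j`; exact labels of degree `K'`, the precisions decrease by `sh` digits. -/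
structure GDat.Ok {F : Fam m J} (D : GDat F) (c : ℕ → Fin m) (n K K' s₁ : ℕ) (sh : ℕ → ℕ)
    (a₀ w₀ z M : ℕ) (e : ℕ → ℕ → ℕ) (g : ℕ → ℕ → ℕ → ℕ) (B : F.Ω → Prop) : Prop where
  chn : ∀ i ≤ M, ∀ j ≤ M, ChOK F c n (fun _ => K) (a₀ + i * z) (w₀ + j * z) (e i j) (g i j) B
    (D.G i j) (D.H i j)
  out : ∀ i ≤ M, ∀ j ≤ M, Out2 n K' s₁ sh (a₀ + i * z) (w₀ + j * z) B (ptr F J)
    (slam F (w₀ + j * z)) tx (tl (w₀ + j * z)) (fun l => g i j (l - 1)) (Gx c n (D.G i j))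
    (Hx c n (w₀ + j * z) (D.H i j)) (cx F fun i => c (i - 1)) (D.zL i j) (D.PL i j) (D.zS i j)
    (D.zS' i j) (D.PS i j)

theorem GDat.Ok.sub {F : Fam m J} {D : GDat F} {c : ℕ → Fin m} {n K K' s₁ : ℕ} {sh : ℕ → ℕ}
    {a₀ w₀ z M : ℕ} {e : ℕ → ℕ → ℕ} {g : ℕ → ℕ → ℕ → ℕ} {B B' : F.Ω → Prop}
    (h : D.Ok c n K K' s₁ sh a₀ w₀ z M e g B) (hB : Sub B' B) :
    D.Ok c n K K' s₁ sh a₀ w₀ z M e g B' :=
  ⟨fun i hi j hj => (h.chn i hi j hj).sub hB, fun i hi j hj => (h.out i hi j hj).sub hB⟩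

/-- The conditions `Cnd2`. -/
theorem GDat.Ok.cnd {F : Fam m J} {D : GDat F} {c : ℕ → Fin m} {n K K' s₁ : ℕ} {sh : ℕ → ℕ}
    {a₀ w₀ z M : ℕ} {e : ℕ → ℕ → ℕ} {g : ℕ → ℕ → ℕ → ℕ} {B : F.Ω → Prop}
    (h : D.Ok c n K K' s₁ sh a₀ w₀ z M e g B) (hK' : 1 ≤ K')
    {R : ℕ → ℕ → Type} (ρ : (i j : ℕ) → LnT F → R i j) :
    (D.cd n ρ).Cnd2 (cx F fun i => c (i - 1)) (pc c) K' a₀ w₀ z M
      (fun i j l => g i j (l - 1) - sh l) B :=
  cnd2_of ρ hK' h.out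

/-- **The grid**, for one family. -/
theorem grid_fam (n K : ℕ) : ∃ (sh : ℕ → ℕ) (K' s₁ : ℕ), 1 ≤ K' ∧ ∀ (m J M a₀ w₀ z : ℕ)
    (F : Fam m J) (c : ℕ → Fin m) (Kv : ℕ → ℕ → ℕ → ℕ) (a w e : ℕ → ℕ → ℕ)
    (g : ℕ → ℕ → ℕ → ℕ) (A : F.Ω → Prop), w₀ + M * z ≤ a₀ → a₀ ≤ J →
    Inj c n → (∀ i ≤ M, ∀ j ≤ M, ∀ l < n, Kv i j l ≤ K) →
    (∀ i ≤ M, ∀ j ≤ M, ∀ l < n, sh (l + 1) ≤ g i j l) →
    (∀ i ≤ M, ∀ j ≤ M, a i j ≤ a₀ + i * z) → (∀ i ≤ M, ∀ j ≤ M, w i j ≤ w₀ + j * z) →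
    (∀ i ≤ M, ∀ j ≤ M, ChN F c n (Kv i j) (a i j) (w i j) (e i j) (g i j) A) →
    ∃ (D : GDat F) (B : F.Ω → Prop), Sub B A ∧
      Pe F.p A ≤ (K' : ℝ) ^ ((M + 1) ^ 2) * Pe F.p B ∧
      D.Ok c n K K' s₁ sh a₀ w₀ z M e g B := by
  obtain ⟨sh, K', s₁, hK', hcd⟩ := cd2 n K
  refine ⟨sh, K', s₁, hK', ?_⟩
  intro m J M a₀ w₀ z F c Kv a w e g A hwa haJ hc hKv hg ha hw h
  have hwj : ∀ j ≤ M, w₀ + j * z ≤ J := fun j hj =>
    ((Nat.add_le_add_left (Nat.mul_le_mul_right z hj) w₀).trans hwa).trans haJ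
  have h1 : ∀ i j, ∃ (G : PtT F → ℕ → MvPolynomial (Option (Fin m)) ℝ)
      (H : LnT F → ℕ → MvPolynomial (Option (Fin m)) ℝ), i ≤ M → j ≤ M →
      ChOK F c n (fun _ => K) (a₀ + i * z) (w₀ + j * z) (e i j) (g i j) A G H := by
    intro i j
    by_cases hij : i ≤ M ∧ j ≤ M
    · obtain ⟨G, H, h2⟩ := (h i hij.1 j hij.2).mono (K' := fun _ => K) le_rfl
        (fun l hl => hKv i hij.1 j hij.2 l hl) (ha i hij.1 j hij.2) (hw i hij.1 j hij.2)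
        (hwj j hij.2) le_rfl
      exact ⟨G, H, fun _ _ => h2⟩
    · exact ⟨fun _ _ => 0, fun _ _ => 0, fun hi hj => absurd ⟨hi, hj⟩ hij⟩
  choose G H hGH using h1
  obtain ⟨zL, PL, zS, zS', PS, B, hBA, hPe, hO⟩ := hcd m J M a₀ w₀ z F c
    (fun _ _ _ => K) e g A G H hwa haJ hc (fun _ _ _ _ _ _ => le_rfl) hg
    (fun i hi j hj => hGH i j hi hj)
  exact ⟨⟨G, H, zL, PL, zS, zS', PS⟩, B, hBA, hPe,
    ⟨fun i hi j hj => (hGH i j hi hj).sub hBA, hO⟩⟩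

/-- The integer parts of positive real exponents are large. -/
theorem flo_ev {n M : ℕ} {b : ℕ → ℕ → ℕ → ℝ} (hb : ∀ i ≤ M, ∀ j ≤ M, ∀ l < n, 0 < b i j l)
    (sh : ℕ → ℕ) : ∃ J₁ : ℕ, ∀ J ≥ J₁, ∀ i ≤ M, ∀ j ≤ M, ∀ l < n,
      sh (l + 1) ≤ ⌊b i j l * J⌋₊ := by
  have h1 : ∀ i j l, ∃ J₁ : ℕ, i ≤ M → j ≤ M → l < n → ∀ J ≥ J₁, sh (l + 1) ≤ ⌊b i j l * J⌋₊ := by
    intro i j l
    by_cases h : i ≤ M ∧ j ≤ M ∧ l < n
    · obtain ⟨J₁, hJ₁⟩ := exists_nat_gt (sh (l + 1) / b i j l : ℝ)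
      refine ⟨J₁, fun hi hj hl J hJ => Nat.le_floor ?_⟩
      have h2 := hb i hi j hj l hl
      rw [div_lt_iff₀ h2] at hJ₁
      have h3 : (J₁ : ℝ) ≤ J := by exact_mod_cast hJ
      nlinarith
    · exact ⟨0, fun hi hj hl => absurd ⟨hi, hj, hl⟩ h⟩
  choose f hf using h1
  refine ⟨∑ i ∈ range (M + 1), ∑ j ∈ range (M + 1), ∑ l ∈ range n, f i j l,
    fun J hJ i hi j hj l hl => hf i j l hi hj hl J (le_trans ?_ hJ)⟩
  refine le_trans ?_ (Finset.single_le_sum (f := fun i => ∑ j ∈ range (M + 1), ∑ l ∈ range n,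
    f i j l) (fun _ _ => Nat.zero_le _) (mem_range.2 (by omega : i < M + 1)))
  refine le_trans ?_ (Finset.single_le_sum (f := fun j => ∑ l ∈ range n, f i j l)
    (fun _ _ => Nat.zero_le _) (mem_range.2 (by omega : j < M + 1)))
  exact Finset.single_le_sum (f := fun l => f i j l) (fun _ _ => Nat.zero_le _) (mem_range.2 hl)

/-- **The grid, for a class.** The radii `α + i ζ`, the windows `ϖ + j ζ`, `i, j ≤ M`. -/
theorem grid_cd2 (n K : ℕ) : ∃ (sh : ℕ → ℕ) (K' s₁ : ℕ), 1 ≤ K' ∧ ∀ {m : ℕ} {S : PCl m} {M : ℕ}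
    {c : ℕ → Fin m} {Kv : ℕ → ℕ → ℕ → ℕ} {α ϖ ζ : ℝ} {e : ℕ → ℕ → ℝ} {b : ℕ → ℕ → ℕ → ℝ},
    0 ≤ ϖ → 0 < ζ → ϖ + (M + 1) * ζ < α → α + (M + 1) * ζ < 1 → Inj c n →
    (∀ i ≤ M, ∀ j ≤ M, ∀ l < n, Kv i j l ≤ K) → (∀ i ≤ M, ∀ j ≤ M, ∀ l < n, 0 < b i j l) →
    Bas S (fun J F A => ∀ i ≤ M, ∀ j ≤ M,
      Chn c n (Kv i j) (α + i * ζ) (ϖ + j * ζ) (e i j) (b i j) J F A) →
    Bas S (fun J F A => up ϖ J + (M + 1) * up ζ J ≤ up α J ∧
      up α J + (M + 1) * up ζ J ≤ J ∧ 1 ≤ up ζ J ∧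
      ∃ (D : GDat F) (B : F.Ω → Prop), Sub B A ∧
      Pe F.p A ≤ (K' : ℝ) ^ ((M + 1) ^ 2) * Pe F.p B ∧
      D.Ok c n K K' s₁ sh (up α J) (up ϖ J) (up ζ J) M (fun i j => ⌊e i j * J⌋₊)
        (fun i j l => ⌊b i j l * J⌋₊) B) := by
  obtain ⟨sh, K', s₁, hK', hgr⟩ := grid_fam n K
  refine ⟨sh, K', s₁, hK', ?_⟩
  intro m S M c Kv α ϖ ζ e b hϖ hζ hthin htop hc hKv hb h
  obtain ⟨J₁, h1⟩ := grid_ev hϖ hζ hthin htop
  obtain ⟨J₂, h2⟩ := flo_ev hb sh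
  refine Bas.mono (max J₁ J₂) h fun J hJ F A hA => ?_
  obtain ⟨h3, h4, h5⟩ := h1 J ((le_max_left _ _).trans hJ)
  have h6 := h2 J ((le_max_right _ _).trans hJ)
  refine ⟨h3, h4, h5, ?_⟩
  have e1 : (M + 1) * up ζ J = M * up ζ J + up ζ J := by ring
  exact hgr m J M (up α J) (up ϖ J) (up ζ J) F c Kv
    (fun i _ => ⌊(α + i * ζ) * J⌋₊) (fun _ j => ⌊(ϖ + j * ζ) * J⌋₊) (fun i j => ⌊e i j * J⌋₊)
    (fun i j l => ⌊b i j l * J⌋₊) A (by omega) (by omega) hc hKv h6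
    (fun i _ _ _ => flo_grid i J) (fun _ _ j _ => flo_grid j J) (fun i hi j hj => hA i hi j hj)

end CLO

end Pool.STAT
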