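import Pool.Agent.H40.MIC.CD2N
import Pool.Agent.H40.MIC.Grd2

/-!
# The axioms of the cell at the grid
-/

set_option autoImplicit false

namespace Pool.STAT

open Finset MvPolynomial
open Pool.Agent.H49.Ent Pool.Agent.H32.Dense Pool.STK Pool.KS3 Pool.KA Pool.KSAT Pool.PB Pool.GEN
open Pool.K2S Pool.S6C

namespace CLO

/-- The cell at the grid, with any values `ρ` of the line and of the window. -/
noncomputable def GDat.nd {m J : ℕ} {F : Fam m J} (D : GDat F) (c : ℕ → Fin m) (n : ℕ)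
    (sh : ℕ → ℕ) (w₀ z M : ℕ) (g : ℕ → ℕ → ℕ → ℕ)
    {R : ℕ → ℕ → Type} (ρ : (i j : ℕ) → LnT F → R i j) : NDat2 :=
  (D.cd n ρ).nd2 (cx F fun i => c (i - 1)) (pc c) w₀ z M (fun i j l => g i j (l - 1) - sh l)

/-- **The axioms `Ok2` at the grid**, given the fields about bits, for every law `q` on the
event `B`. -/
theorem GDat.ok2 (n K' s₁ : ℕ) : ∃ C₀ : ℝ, 0 ≤ C₀ ∧ ∀ {m J : ℕ} {F : Fam m J} {D : GDat F}
    {c : ℕ → Fin m} {K : ℕ} {sh : ℕ → ℕ} {a₀ w₀ z M : ℕ} {e : ℕ → ℕ → ℕ} {g : ℕ → ℕ → ℕ → ℕ}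
    {B : F.Ω → Prop} {R : ℕ → ℕ → Type}
    (ρ : (i j : ℕ) → LnT F → R i j) {lam gam : ℕ → ℝ} {κ C₁ : ℝ}, 1 ≤ K' →
    D.Ok c n K K' s₁ sh a₀ w₀ z M e g B → 1 ≤ z → C₀ ≤ C₁ →
    CDat2.Num2 n J a₀ w₀ z M lam gam (fun i j l => g i j (l - 1) - sh l) C₁ →
    ∀ {q : F.Ω → ℝ}, IsLaw q → (∀ ω, 0 < q ω → B ω) →
    (∀ i < M, ∀ j ≤ M, CH q ((D.cd n ρ).lab2 w₀ z (i + 1) j)
      ((D.cd n ρ).lab2 w₀ z i j) ≤ C₁ * z) →
    (∀ i < M, ∀ j < M, CH q ((D.cd n ρ).lab2 w₀ z (i + 1) (j + 1))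
      ((D.cd n ρ).lab2 w₀ z i j) ≤ C₁ * z) →
    (∀ i ≤ M, ∀ j ≤ M, ∀ U, i + U ≤ M →
      ((n - 1 : ℕ) : ℝ) * (U * z) * Real.log 2 - κ * z ≤
      CH q ((D.nd c n sh w₀ z M g ρ).vd n i j (U * z))
        (fun ω => ((D.cd n ρ).lab2 w₀ z i j ω, F.T ω))) →
    (D.nd c n sh w₀ z M g ρ).Ok2 n K' J a₀ w₀ z M lam gam κ C₁ q := by
  obtain ⟨C₀, hC₀, hnet⟩ := cd2_net n K' s₁
  refine ⟨C₀, hC₀, ?_⟩
  intro m J F D c K sh a₀ w₀ z M e g B R ρ lam gam κ C₁ hK' h hz hC hN q hq hB ifew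
    ijfew full
  refine CDat2.ok2 (h.cnd hK' ρ) hN hq hB ifew ijfew
    (fun i hi j hj C' hC' Y y hy hb => ?_) fun i hi j hj U hU => ?_
  · refine (hnet ρ h.out hz hq i hi j hj C' hC' Y y hy hb).trans ?_
    have h1 : (0 : ℝ) ≤ (C' + 1) * z := by positivity
    rw [mul_assoc, mul_assoc]
    exact mul_le_mul_of_nonneg_right hC h1
  · refine (full i hi j hj U hU).trans (le_of_eq ?_)
    congr 1
    funext ω l
    exact CDat2.nd2_vd _ _ _ _ _ _ _ hi hj ω l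

end CLO

end Pool.STAT
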