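import Pool.Agent.H40.MIC.Grd2
import Pool.Agent.H68.STAT.Net

/-!
# The values of the lines have few bits

If the line sides of the chains of two samples with the same value of `y` are near on the natural
box of the window, then the values of the lines have few bits given `y`.
-/

set_option autoImplicit false

namespace Pool.STAT

open Finset MvPolynomial
open Pool.Agent.H49.Ent Pool.Agent.H32.Dense Pool.STK Pool.KS3 Pool.KA Pool.KSAT Pool.PB Pool.GEN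
open Pool.K2S

namespace CLO

/-- Near systems: if `Φ` is near `Ψ`, `Φ'` is near `Ψ'`, and `Ψ`, `Ψ'` are near on the boxes of
`Ψ`, then `Φ`, `Φ'` are near on the dilated boxes of `Φ`. -/
theorem near_near (n K c : ℕ) (S r : ℝ) (hc : 1 ≤ c) (hS : 1 ≤ S) (hr : 1 ≤ r) :
    ∃ A : ℝ, 1 ≤ A ∧ ∀ {g : ℕ → ℕ} {Φ Ψ Φ' Ψ' : ℕ → PN} {S₀ : ℝ}, 1 ≤ S₀ → TriN Ψ → TriN Ψ' →
    (∀ i, (Ψ i).totalDegree ≤ K) → (∀ i, (Ψ' i).totalDegree ≤ K) →
    Nr c S g Φ Ψ (n + 1) → Nr c S g Φ' Ψ' (n + 1) → Ψ 0 = Ψ' 0 →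
    (∀ l, 1 ≤ l → l ≤ n → ∀ b : ℕ → ℝ, Bxr 1 g Ψ l b →
      |eval b (Ψ l) - eval b (Ψ' l)| ≤ S₀ / 2 ^ g l) →
    ∀ l ≤ n, ∀ b : ℕ → ℝ, Bxr r g Φ l b →
      |eval b (Φ l) - eval b (Φ' l)| ≤ A * S₀ ^ c / 2 ^ g l := by
  obtain ⟨C, hC, hdil⟩ := dil n K
  obtain ⟨N, hN⟩ := cc_le c n
  obtain ⟨r₁, hr₁⟩ : ∃ r₁ : ℝ, r₁ = (2 * c * S * r) ^ N := ⟨_, rfl⟩
  have hc' : (1 : ℝ) ≤ c := by exact_mod_cast hc
  have hcS : (1 : ℝ) ≤ c * S := by nlinarith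
  have hΘ : (1 : ℝ) ≤ 2 * c * S * r := by nlinarith
  have hr1 : 1 ≤ r₁ := by
    rw [hr₁]
    exact one_le_pow₀ hΘ
  obtain ⟨A₂, hA₂⟩ : ∃ A₂ : ℝ, A₂ = C * r₁ ^ (K * (K + 1) ^ (n + 1)) := ⟨_, rfl⟩
  have hA2 : 1 ≤ A₂ := by
    rw [hA₂]
    exact one_le_mul_of_one_le_of_one_le hC (one_le_pow₀ hr1)
  obtain ⟨A₁, hA₁⟩ : ∃ A₁ : ℝ, A₁ = (c * S * r₁) ^ c := ⟨_, rfl⟩
  obtain ⟨A₄, hA₄⟩ : ∃ A₄ : ℝ, A₄ = (c * S * (r₁ + A₂)) ^ c := ⟨_, rfl⟩
  have hA1 : 1 ≤ A₁ := by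
    rw [hA₁]
    exact one_le_pow₀ (by nlinarith)
  have hA4 : 1 ≤ A₄ := by
    rw [hA₄]
    exact one_le_pow₀ (by nlinarith)
  refine ⟨A₁ + A₂ + A₄, by linarith, ?_⟩
  intro g Φ Ψ Φ' Ψ' S₀ hS₀ hT hT' hK hK' h h' h0 hn l hl b hb
  have hSc : 1 ≤ S₀ ^ c := one_le_pow₀ hS₀
  have hS0c : S₀ ≤ S₀ ^ c := le_self_pow₀ hS₀ (by omega)
  have hb1 : Bxr r₁ g Ψ l b := by
    refine ((h.mono (by omega : l ≤ n + 1)).box hc hS hr hb l le_rfl).mono ?_ le_rfl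
    rw [hr₁]
    exact pow_le_pow_right₀ hΘ (hN l hl)
  -- the polynomials of the lines
  have hΨ : ∀ j ≤ l, |eval b (Ψ j) - eval b (Ψ' j)| ≤ A₂ * S₀ / 2 ^ g j := by
    intro j hj
    rcases Nat.eq_zero_or_pos j with rfl | hj0
    · rw [h0, sub_self, abs_zero]
      positivity
    · have h1 := hdil Ψ g (Ψ j - Ψ' j) j (S₀ / 2 ^ g j) r₁ hT hK (by omega)
        (AdxRow.vars_sub_le (hT j) (hT' j))
        ((totalDegree_sub _ _).trans (max_le (hK j) (hK' j))) hr1 (fun b' hb' => by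
          rw [map_sub]
          exact hn j hj0 (by omega) b' hb') b (hb1.mono le_rfl hj)
      rw [map_sub] at h1
      refine h1.trans (le_of_eq ?_)
      rw [hA₂]
      ring
  have h1 : |eval b (Φ l) - eval b (Ψ l)| ≤ A₁ / 2 ^ g l := by
    rw [hA₁]
    exact h.all hc hS (by omega) hr1 hb1
  have hb2 : Bxr (r₁ + A₂ * S₀) g Ψ' l b := by
    intro j hj
    have h2 := hb1 j hj
    have h3 := hΨ j hj.le
    have h4 : |b j - eval b (Ψ' j)| ≤ |b j - eval b (Ψ j)| + |eval b (Ψ j) - eval b (Ψ' j)| := by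
      have := abs_add_le (b j - eval b (Ψ j)) (eval b (Ψ j) - eval b (Ψ' j))
      rwa [sub_add_sub_cancel] at this
    refine (h4.trans (add_le_add h2 h3)).trans (le_of_eq ?_)
    rw [← add_div]
  have h2 : |eval b (Φ' l) - eval b (Ψ' l)| ≤ A₄ * S₀ ^ c / 2 ^ g l := by
    have h3 := h'.all hc hS (j := l) (by omega) (ρ := r₁ + A₂ * S₀) (by nlinarith) hb2
    refine h3.trans (div_le_div_of_nonneg_right ?_ (by positivity))
    rw [hA₄, ← mul_pow]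
    refine pow_le_pow_left₀ (by positivity) ?_ _
    have h4 : r₁ + A₂ * S₀ ≤ (r₁ + A₂) * S₀ := by nlinarith
    have h5 : (0 : ℝ) ≤ c * S := by linarith
    calc (c : ℝ) * S * (r₁ + A₂ * S₀) ≤ c * S * ((r₁ + A₂) * S₀) :=
          mul_le_mul_of_nonneg_left h4 h5
      _ = c * S * (r₁ + A₂) * S₀ := by ring
  have h3 := hΨ l le_rfl
  have h4 : |eval b (Φ l) - eval b (Φ' l)| ≤ |eval b (Φ l) - eval b (Ψ l)| +
      |eval b (Ψ l) - eval b (Ψ' l)| + |eval b (Φ' l) - eval b (Ψ' l)| := by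
    rw [abs_sub_comm (eval b (Φ' l))]
    have e1 := abs_add_le (eval b (Φ l) - eval b (Ψ l)) (eval b (Ψ l) - eval b (Ψ' l))
    have e2 := abs_add_le (eval b (Φ l) - eval b (Ψ l) + (eval b (Ψ l) - eval b (Ψ' l)))
      (eval b (Ψ' l) - eval b (Φ' l))
    have e3 : eval b (Φ l) - eval b (Ψ l) + (eval b (Ψ l) - eval b (Ψ' l)) +
      (eval b (Ψ' l) - eval b (Φ' l)) = eval b (Φ l) - eval b (Φ' l) := by ring
    rw [e3] at e2
    linarith
  refine (h4.trans (add_le_add (add_le_add h1 h3) h2)).trans ?_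
  rw [← add_div, ← add_div]
  refine div_le_div_of_nonneg_right ?_ (by positivity)
  nlinarith

/-- **The value of the line has few bits**, abstract form: if the line sides of two samples with
the same value of `y` are near on the natural box of the window, then the values have few bits
given `y`. -/
theorem val_net (n K K' s₁ : ℕ) (sh : ℕ → ℕ) (hK' : 1 ≤ K') : ∃ C₁ : ℝ, 0 ≤ C₁ ∧
    ∀ {Ω Y Λ W : Type} [Fintype Ω] {a w : ℕ} {B : Ω → Prop} {pt : Ω → Y} {ln : Ω → Λ}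
    {θ : Y → ℝ} {θ' : Λ → ℝ} {g : ℕ → ℕ} {G : Y → ℕ → PN} {H : Λ → ℕ → PN} {X : Ω → ℕ → ℝ}
    {zL : Λ → LV} {PL : LV → ℕ → PN} {zS : Y → LV} {zS' : LV → ℝ → LV} {PS : LV → ℕ → PN}
    {q : Ω → ℝ}, Out2 n K' s₁ sh a w B pt ln θ θ' g G H X zL PL zS zS' PS → IsLaw q →
    (∀ ω, 0 < q ω → B ω) → (∀ s, TriN (H s)) → (∀ s i, (H s i).totalDegree ≤ K) →
    (∀ s, H s 0 = MvPolynomial.C (θ' s)) → ∀ y : Ω → W, Det q y (fun ω => θ' (ln ω)) →
    ∀ C' : ℝ, 0 ≤ C' → (∀ ω ω', 0 < q ω → 0 < q ω' → y ω = y ω' → ∀ l, 1 ≤ l → l ≤ n →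
      ∀ b : ℕ → ℝ, Bxr 1 (gt0 w g) (H (ln ω)) l b →
      |eval b (H (ln ω) l) - eval b (H (ln ω') l)| ≤ Real.exp C' / 2 ^ gt0 w g l) →
    CH q (fun ω => zL (ln ω)) y ≤ C₁ * (C' + 1) := by
  obtain ⟨u, hu⟩ : ∃ u, u = ∑ i ∈ range (n + 1), sh i := ⟨_, rfl⟩
  have hshu : ∀ i ≤ n, sh i ≤ u := fun i hi => by
    rw [hu]
    exact Finset.single_le_sum (f := sh) (fun _ _ => Nat.zero_le _) (mem_range.2 (by omega))
  obtain ⟨A, hA, hnn⟩ := near_near n K K' 2 (2 ^ u) hK' (by norm_num)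
    (one_le_pow₀ (by norm_num))
  obtain ⟨C₁, hC₁, hnum⟩ := Net.net_num (n := n) (c := K') (L := 2 ^ s₁ * A) (by positivity)
  refine ⟨C₁ * K', by positivity, ?_⟩
  intro Ω Y Λ W _ a w B pt ln θ θ' g G H X zL PL zS zS' PS q hO hq hB hT hK hH0 y hy C' hC' hn
  have hS₀ : (1 : ℝ) ≤ Real.exp C' := Real.one_le_exp hC'
  have hside : ∀ i ≤ n, 1 ≤ i → (1 : ℝ) / 2 ^ (g i - sh i) ≤ 2 ^ u / 2 ^ g i := by
    intro i hi _
    rw [div_le_div_iff₀ (by positivity) (by positivity), one_mul, ← pow_add]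
    refine pow_le_pow_right₀ (by norm_num) ?_
    have := hshu i hi
    omega
  refine (Net.net_core hq (n := n) (c := K') (L := 2 ^ s₁) (S := A * Real.exp C' ^ K')
    (fun ω => zL (ln ω)) y (fun ω ω' h h' e => ?_) (fun ω _ j k hk => hO.Lsupp _ j k hk)
    fun ω ω' h h' e j hj1 hj hk k => ?_).trans ?_
  · show (zL (ln ω)).1 = (zL (ln ω')).1
    rw [hO.Lfst, hO.Lfst]
    exact hy ω ω' h h' e
  · refine hO.Lsep _ _ ?_ j hj hk (A * Real.exp C' ^ K') (by positivity) (fun b hb => ?_) k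
    · rw [hO.Lfst, hO.Lfst]
      exact hy ω ω' h h' e
    · have e0 : H (ln ω) 0 = H (ln ω') 0 := by
        rw [hH0, hH0]
        exact congrArg _ (hy ω ω' h h' e)
      have hb1 : Bxr (2 ^ u) (gt0 w g) (PL (zL (ln ω))) j b := by
        intro i hi
        have h1 := hb i hi
        rcases Nat.eq_zero_or_pos i with rfl | hi0
        · rw [gt0_zero] at h1 ⊢
          refine h1.trans (div_le_div_of_nonneg_right ?_ (by positivity))
          exact one_le_pow₀ (by norm_num)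
        · rw [gt0_pos _ _ hi0] at h1 ⊢
          exact h1.trans (hside i (by omega) hi0)
      have h1 := hnn hS₀ (hT (ln ω)) (hT (ln ω')) (hK _) (hK _) (hO.nrL ω (hB ω h))
        (hO.nrL ω' (hB ω' h')) e0 (fun l l1 l2 => hn ω ω' h h' e l l1 l2) j hj b hb1
      refine h1.trans (div_le_div_of_nonneg_left (by positivity) (by positivity) ?_)
      rw [gt0_pos _ _ hj1, gt0_pos _ _ hj1]
      exact pow_le_pow_right₀ (by norm_num) (Nat.sub_le _ _)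
  · have h1 := hnum (K' * C') 1 (by positivity) le_rfl
    have e1 : (2 : ℝ) ^ s₁ * (A * Real.exp C' ^ K') =
        2 ^ s₁ * A * Real.exp (K' * C' * ((1 : ℕ) : ℝ)) := by
      rw [Nat.cast_one, mul_one, Real.exp_nat_mul]
      ring
    rw [e1]
    refine h1.trans ?_
    rw [Nat.cast_one, mul_one, mul_assoc]
    refine mul_le_mul_of_nonneg_left ?_ hC₁
    have h2 : (1 : ℝ) ≤ K' := by exact_mod_cast hK'
    nlinarith

/-- **The value of the line has few bits**: if the line sides of the chain at `(i, j)` of two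
samples with the same value of `y` are near on the natural box of the window, then the values have
few bits given `y`. -/
theorem GDat.val (n K K' s₁ : ℕ) (sh : ℕ → ℕ) (hK' : 1 ≤ K') : ∃ C₁ : ℝ, 0 ≤ C₁ ∧
    ∀ {m J : ℕ} {F : Fam m J} {D : GDat F} {c : ℕ → Fin m} {a₀ w₀ z M : ℕ} {e : ℕ → ℕ → ℕ}
    {g : ℕ → ℕ → ℕ → ℕ} {B : F.Ω → Prop} {q : F.Ω → ℝ} {W : Type},
    D.Ok c n K K' s₁ sh a₀ w₀ z M e g B → Inj c n → IsLaw q → (∀ ω, 0 < q ω → B ω) →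
    ∀ i ≤ M, ∀ j ≤ M, ∀ y : F.Ω → W, Det q y (F.T1 (w₀ + j * z)) → ∀ C' : ℝ, 0 ≤ C' →
    (∀ ω ω', 0 < q ω → 0 < q ω' → y ω = y ω' → ∀ l < n, ∀ b : Option (Fin m) → ℝ,
      NBx c (D.H i j (slam F (w₀ + j * z) ω)) (g i j) (w₀ + j * z)
        (tl (w₀ + j * z) (slam F (w₀ + j * z) ω)) l b →
      |eval b (D.H i j (slam F (w₀ + j * z) ω) l) -
        eval b (D.H i j (slam F (w₀ + j * z) ω') l)| ≤ Real.exp C' / 2 ^ g i j l) →
    CH q (fun ω => D.zL i j (slam F (w₀ + j * z) ω)) y ≤ C₁ * (C' + 1) := by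
  obtain ⟨C₁, hC₁, h⟩ := val_net n K K' s₁ sh hK'
  refine ⟨C₁, hC₁, ?_⟩
  intro m J F D c a₀ w₀ z M e g B q W hD hc hq hB i hi j hj y hy C' hC' hn
  have hch := hD.chn i hi j hj
  refine h (hD.out i hi j hj) hq hB (fun s => sy_tri) (fun s l => sy_deg (fun l _ => hch.degH s l)
    l) (fun s => sy_zero) y (fun ω ω' h h' e => ?_) C' hC' fun ω ω' h h' e l l1 l2 b hb => ?_
  · have h1 := hy ω ω' h h' e
    show tl (w₀ + j * z) (slam F (w₀ + j * z) ω) = tl (w₀ + j * z) (slam F (w₀ + j * z) ω')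
    rw [tl_eq, tl_eq, h1]
  · obtain ⟨l, rfl⟩ : ∃ l', l = l' + 1 := ⟨l - 1, by omega⟩
    have hb1 : Bxr 1 (gg (w₀ + j * z) (g i j)) (sy c n (tl (w₀ + j * z)
      (slam F (w₀ + j * z) ω)) (D.H i j (slam F (w₀ + j * z) ω))) (l + 1) b := hb
    have h1 := hn ω ω' h h' e l (by omega) _ (nbx_of_bxr hc (hch.depH _) (by omega) hb1)
    have h7 : eval b (Hx c n (w₀ + j * z) (D.H i j) (slam F (w₀ + j * z) ω) (l + 1)) =
        eval (fun o => eval b (vr c l o)) (D.H i j (slam F (w₀ + j * z) ω) l) :=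
      eval_sy hc (hch.depH _) (by omega) b
    have h8 : eval b (Hx c n (w₀ + j * z) (D.H i j) (slam F (w₀ + j * z) ω') (l + 1)) =
        eval (fun o => eval b (vr c l o)) (D.H i j (slam F (w₀ + j * z) ω') l) :=
      eval_sy hc (hch.depH _) (by omega) b
    rw [h7, h8]
    exact h1

end CLO

end Pool.STAT
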