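import Pool.Agent.H63.STAT.CloF

/-!
# Two-sided labels at the exact time, with a line side over the window

The polynomials `G y` are functions of the point, the polynomials `H s` are functions of the line
and of the window; they agree on the natural boxes with a small time radius around the exact time.
`two_clo`: the line side is replaced by a function of a value `zL` of the line, and on an event of
probability at least a constant the point side is replaced by a function of a value `zS` of the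
point, which is also a function of the value of the line and of the exact time.
-/

set_option autoImplicit false

namespace Pool.STAT

open Finset MvPolynomial
open Pool.Agent.H49.Ent Pool.Agent.H32.Dense Pool.STK Pool.KA Pool.K2S

namespace CLO

/-- The precisions with the precision `a` of the time. -/
def gt0 (a : ℕ) (g : ℕ → ℕ) (i : ℕ) : ℕ := if i = 0 then a else g i

theorem gt0_zero (a : ℕ) (g : ℕ → ℕ) : gt0 a g 0 = a := if_pos rfl

theorem gt0_pos (a : ℕ) (g : ℕ → ℕ) {i : ℕ} (hi : 1 ≤ i) : gt0 a g i = g i := if_neg (by omega)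

/-- Separation of the values of labels: the coefficients of near polynomials are near. -/
def Sep {Y : Type} (n : ℕ) (L : ℝ) (g : ℕ → ℕ) (z : Y → LV) (P : LV → ℕ → PN) : Prop :=
  ∀ y y', (z y).1 = (z y').1 → ∀ j ≤ n, (∀ k < j, (z y).2 k = (z y').2 k) →
    ∀ S' : ℝ, 0 ≤ S' → (∀ b : ℕ → ℝ, Bx g (P (z y)) j b →
      |eval b (P (z y) j) - eval b (P (z y') j)| ≤ S' / 2 ^ g j) →
    ∀ k, |(((z y).2 j k - (z y').2 j k : ℤ) : ℝ)| ≤ L * S'

theorem Sep.shift {Y : Type} {n : ℕ} {L : ℝ} {z : Y → LV} {P : LV → ℕ → PN} {a u : ℕ}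
    {g sh : ℕ → ℕ} (h : Sep n L (gs u (gt0 a g)) z P) (hm : Monotone sh) (hu : ∀ i, u ≤ sh i)
    (hg : ∀ i, 1 ≤ i → i ≤ n → sh i ≤ g i) :
    Sep n (L * 2 ^ sh n) (gt0 a fun i => g i - sh i) z P := by
  have e0 : gs u (gt0 a g) 0 = a := by
    rw [show gs u (gt0 a g) 0 = gt0 a g 0 from if_pos rfl, gt0_zero]
  have e1 : ∀ i, 1 ≤ i → gs u (gt0 a g) i = g i - u := fun i hi => by
    rw [show gs u (gt0 a g) i = gt0 a g i - u from if_neg (by omega), gt0_pos a g hi]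
  intro y y' h1 j hj hk S' hS hb k
  have h2 := h y y' h1 j hj hk (2 ^ sh n * S') (by positivity) (fun b hb' => ?_) k
  · rw [← mul_assoc] at h2
    exact h2
  · refine (hb b fun l hl => ?_).trans ?_
    · have h3 := hb' l hl
      rcases Nat.eq_zero_or_pos l with rfl | h4
      · rw [gt0_zero]
        rw [e0] at h3
        exact h3
      · rw [gt0_pos _ _ h4]
        rw [e1 l h4] at h3
        refine h3.trans (one_div_le_one_div_of_le (by positivity)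
          (pow_le_pow_right₀ (by norm_num) ?_))
        have := hu l
        omega
    · rcases Nat.eq_zero_or_pos j with rfl | h4
      · rw [gt0_zero, e0]
        refine div_le_div_of_nonneg_right ?_ (by positivity)
        have : (1 : ℝ) ≤ 2 ^ sh n := one_le_pow₀ (by norm_num)
        nlinarith
      · rw [gt0_pos _ _ h4, e1 j h4, div_le_div_iff₀ (by positivity) (by positivity)]
        have h5 : (2 : ℝ) ^ (g j - u) ≤ 2 ^ sh n * 2 ^ (g j - sh j) := by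
          rw [← pow_add]
          refine pow_le_pow_right₀ (by norm_num) ?_
          have h6 := hg j h4 hj
          have h7 := hm hj
          omega
        calc S' * 2 ^ (g j - u) ≤ S' * (2 ^ sh n * 2 ^ (g j - sh j)) :=
              mul_le_mul_of_nonneg_left h5 hS
          _ = 2 ^ sh n * S' * 2 ^ (g j - sh j) := by ring

/-- **The two-sided data at one pair of a radius and of a window.** -/
structure Raw2 {Ω Y Λ : Type} (n K a w : ℕ) (A : Ω → Prop) (pt : Ω → Y) (ln : Ω → Λ)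
    (θ : Y → ℝ) (θ' : Λ → ℝ) (g : ℕ → ℕ) (G : Y → ℕ → PN) (H : Λ → ℕ → PN)
    (X : Ω → ℕ → ℝ) : Prop where
  G_tri : ∀ y, TriN (G y)
  G_deg : ∀ y i, (G y i).totalDegree ≤ K
  H_tri : ∀ s, TriN (H s)
  H_deg : ∀ s i, (H s i).totalDegree ≤ K
  G_zero : ∀ y, G y 0 = MvPolynomial.C (θ y)
  H_zero : ∀ s, H s 0 = MvPolynomial.C (θ' s)
  time : ∀ ω, A ω → |θ (pt ω) - θ' (ln ω)| ≤ 1 / 2 ^ w
  X_zero : ∀ ω, A ω → X ω 0 = θ (pt ω)
  pos : ∀ ω, A ω → ∀ i, 1 ≤ i → i ≤ n → |X ω i - eval (X ω) (G (pt ω) i)| ≤ 1 / 2 ^ g i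
  near : ∀ ω, A ω → ∀ i, 1 ≤ i → i ≤ n → ∀ b : ℕ → ℝ, Bx (gt0 a g) (G (pt ω)) i b →
    |eval b (G (pt ω) i) - eval b (H (ln ω) i)| ≤ 1 / 2 ^ g i

theorem Raw2.sub {Ω Y Λ : Type} {n K a w : ℕ} {A B : Ω → Prop} {pt : Ω → Y} {ln : Ω → Λ}
    {θ : Y → ℝ} {θ' : Λ → ℝ} {g : ℕ → ℕ} {G : Y → ℕ → PN} {H : Λ → ℕ → PN} {X : Ω → ℕ → ℝ}
    (h : Raw2 n K a w A pt ln θ θ' g G H X) (hB : ∀ ω, B ω → A ω) :
    Raw2 n K a w B pt ln θ θ' g G H X :=
  ⟨h.G_tri, h.G_deg, h.H_tri, h.H_deg, h.G_zero, h.H_zero, fun ω hω => h.time ω (hB ω hω),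
    fun ω hω => h.X_zero ω (hB ω hω), fun ω hω => h.pos ω (hB ω hω),
    fun ω hω => h.near ω (hB ω hω)⟩

/-- **The exact labels at one pair**: the value `zL` of the line with its polynomials `PL`, the
value `zS` of the point with its polynomials `PS`; `zS` is a function of `zL` and of the exact
time. -/
structure Out2 {Ω Y Λ : Type} (n K' s₁ : ℕ) (sh : ℕ → ℕ) (a w : ℕ) (B : Ω → Prop) (pt : Ω → Y) (ln : Ω → Λ)
    (θ : Y → ℝ) (θ' : Λ → ℝ) (g : ℕ → ℕ) (G : Y → ℕ → PN) (H : Λ → ℕ → PN) (X : Ω → ℕ → ℝ)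
    (zL : Λ → LV) (PL : LV → ℕ → PN) (zS : Y → LV) (zS' : LV → ℝ → LV) (PS : LV → ℕ → PN) :
    Prop where
  Ltri : ∀ v, TriN (PL v)
  Ldeg : ∀ v i, (PL v i).totalDegree ≤ K'
  Lzero : ∀ v, PL v 0 = MvPolynomial.C v.1
  Lfst : ∀ s, (zL s).1 = θ' s
  Stri : ∀ v, TriN (PS v)
  Sdeg : ∀ v i, (PS v i).totalDegree ≤ K'
  Szero : ∀ v, PS v 0 = MvPolynomial.C v.1
  Sfst : ∀ y, (zS y).1 = θ y
  cls : ∀ ω, B ω → zS (pt ω) = zS' (zL (ln ω)) (θ (pt ω))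
  hgt : ∀ ω, B ω → ∀ i, 1 ≤ i → i ≤ n →
    |X ω i - eval (X ω) (PL (zL (ln ω)) i)| ≤ 1 / 2 ^ (g i - sh i)
  pos : ∀ ω, B ω → ∀ i, 1 ≤ i → i ≤ n →
    |X ω i - eval (X ω) (PS (zS (pt ω)) i)| ≤ 1 / 2 ^ (g i - sh i)
  agr : ∀ ω, B ω → ∀ i, 1 ≤ i → i ≤ n → ∀ b : ℕ → ℝ,
    Bx (gt0 a fun i => g i - sh i) (PS (zS (pt ω))) i b →
    |eval b (PS (zS (pt ω)) i) - eval b (PL (zL (ln ω)) i)| ≤ 1 / 2 ^ (g i - sh i)
  nrL : ∀ ω, B ω → Nr K' 2 (gt0 w g) (PL (zL (ln ω))) (H (ln ω)) (n + 1)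
  nrS : ∀ ω, B ω → Nr K' (2 ^ s₁) (gt0 a g) (PS (zS (pt ω))) (G (pt ω)) (n + 1)
  Lsupp : ∀ y j k, (k ∉ ex j K' ∨ j = 0 ∨ n < j) → (zL y).2 j k = 0
  Lsep : Sep n (2 ^ s₁) (gt0 w fun i => g i - sh i) zL PL
  Ssupp : ∀ y j k, (k ∉ ex j K' ∨ j = 0 ∨ n < j) → (zS y).2 j k = 0
  Ssep : Sep n (2 ^ s₁) (gt0 a fun i => g i - sh i) zS PS

theorem Out2.sub {Ω Y Λ : Type} {n K' s₁ : ℕ} {sh : ℕ → ℕ} {a w : ℕ} {B B' : Ω → Prop} {pt : Ω → Y} {ln : Ω → Λ}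
    {θ : Y → ℝ} {θ' : Λ → ℝ} {g : ℕ → ℕ} {G : Y → ℕ → PN} {H : Λ → ℕ → PN} {X : Ω → ℕ → ℝ}
    {zL : Λ → LV} {PL : LV → ℕ → PN} {zS : Y → LV} {zS' : LV → ℝ → LV} {PS : LV → ℕ → PN}
    (h : Out2 n K' s₁ sh a w B pt ln θ θ' g G H X zL PL zS zS' PS) (hB : ∀ ω, B' ω → B ω) :
    Out2 n K' s₁ sh a w B' pt ln θ θ' g G H X zL PL zS zS' PS :=
  ⟨h.Ltri, h.Ldeg, h.Lzero, h.Lfst, h.Stri, h.Sdeg, h.Szero, h.Sfst,
    fun ω hω => h.cls ω (hB ω hω), fun ω hω => h.hgt ω (hB ω hω), fun ω hω => h.pos ω (hB ω hω),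
    fun ω hω => h.agr ω (hB ω hω), fun ω hω => h.nrL ω (hB ω hω), fun ω hω => h.nrS ω (hB ω hω),
    h.Lsupp, h.Lsep, h.Ssupp, h.Ssep⟩

theorem Sep.mono {Y : Type} {n : ℕ} {L L' : ℝ} {g : ℕ → ℕ} {z : Y → LV} {P : LV → ℕ → PN}
    (h : Sep n L g z P) (hL : L ≤ L') : Sep n L' g z P :=
  fun y y' h1 j hj hk S' hS hb k => (h y y' h1 j hj hk S' hS hb k).trans
    (mul_le_mul_of_nonneg_right hL hS)

theorem ex_mono_K {i K K' : ℕ} (h : K ≤ K') : ex i K ⊆ ex i K' := fun k hk => by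
  rw [mem_ex] at hk ⊢
  exact ⟨hk.1, hk.2.trans h⟩

theorem Nr.mono_S {c : ℕ} {S S' : ℝ} {g : ℕ → ℕ} {Φ Ψ : ℕ → PN} {i : ℕ} (h : Nr c S g Φ Ψ i)
    (hS : 0 ≤ S) (hSS : S ≤ S') : Nr c S' g Φ Ψ i := by
  refine ⟨h.1, fun j h1 h2 ρ hρ b hb => (h.2 j h1 h2 ρ hρ b hb).trans
    (div_le_div_of_nonneg_right ?_ (by positivity))⟩
  have hρ0 : (0 : ℝ) ≤ ρ := by linarith
  refine pow_le_pow_left₀ (by positivity) ?_ _
  gcongr

/-- **Exact labels at one pair of a radius and of a window.** -/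
theorem two_clo (n K : ℕ) : ∃ (sh : ℕ → ℕ) (K' s₁ : ℕ), 1 ≤ K' ∧ ∀ (Ω Y Λ : Type) [Fintype Ω] (p : Ω → ℝ)
    (a w : ℕ) (A : Ω → Prop) (pt : Ω → Y) (ln : Ω → Λ) (θ : Y → ℝ) (θ' : Λ → ℝ) (g : ℕ → ℕ)
    (G : Y → ℕ → PN) (H : Λ → ℕ → PN) (X : Ω → ℕ → ℝ), IsLaw p → w ≤ a →
    Raw2 n K a w A pt ln θ θ' g G H X → (∀ i, 1 ≤ i → i ≤ n → sh i ≤ g i) →
    ∃ (zL : Λ → LV) (PL : LV → ℕ → PN) (zS : Y → LV) (zS' : LV → ℝ → LV) (PS : LV → ℕ → PN)
      (B : Ω → Prop), (∀ ω, B ω → A ω) ∧ Pe p A ≤ K' * Pe p B ∧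
      Out2 n K' s₁ sh a w B pt ln θ θ' g G H X zL PL zS zS' PS := by
  classical
  obtain ⟨a₁, c₁, hc₁, hclo₁⟩ := clo n K
  obtain ⟨K₂, hK₂⟩ : ∃ K₂, K₂ = max K c₁ := ⟨_, rfl⟩
  obtain ⟨a₂, c₂, hc₂, hclo₂⟩ := clo n K₂
  obtain ⟨C₁, hC₁, hdil⟩ := dil n K₂
  obtain ⟨K₃, hK₃⟩ : ∃ K₃, K₃ = K₂ * (K₂ + 1) ^ (n + 1) := ⟨_, rfl⟩
  rw [← hK₃] at hdil
  obtain ⟨M, hM⟩ := cc_le c₂ n
  -- the constants
  obtain ⟨s₂, hs₂⟩ := pow_unbounded_of_one_lt (1 + (c₁ * 2 * 2 : ℝ) ^ c₁ + 1)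
    (one_lt_two (α := ℝ))
  obtain ⟨t, ht⟩ := pow_unbounded_of_one_lt (2 ^ s₂ + 1 + (c₂ * 2 ^ s₂ * 1 : ℝ) ^ c₂)
    (one_lt_two (α := ℝ))
  obtain ⟨t₀, ht₀⟩ : ∃ t₀, t₀ = max t (max (a₁ * (1 + 1)) (a₂ * (s₂ + 1))) := ⟨_, rfl⟩
  have e1c : (1 : ℝ) ≤ c₁ := by exact_mod_cast hc₁
  have e2c : (1 : ℝ) ≤ c₂ := by exact_mod_cast hc₂
  have e2s : (1 : ℝ) ≤ 2 ^ s₂ := one_le_pow₀ (by norm_num)
  obtain ⟨ρ, hρ⟩ : ∃ ρ : ℕ → ℝ, ρ = fun x => (2 * (c₂ : ℝ) * 2 ^ s₂ * 2 ^ x) ^ M := ⟨_, rfl⟩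
  have hΘ1 : ∀ x : ℕ, (1 : ℝ) ≤ 2 * c₂ * 2 ^ s₂ * 2 ^ x := by
    intro x
    have h0 : (1 : ℝ) ≤ 2 ^ x := one_le_pow₀ (by norm_num)
    have h1 : (1 : ℝ) ≤ 2 * c₂ := by linarith
    have h2 : (1 : ℝ) ≤ 2 * c₂ * 2 ^ s₂ := by nlinarith
    nlinarith
  have hρ1 : ∀ x, 1 ≤ ρ x := fun x => by
    rw [hρ]
    exact one_le_pow₀ (hΘ1 x)
  have hf : ∀ x : ℕ, ∃ y : ℕ, x ≤ y ∧
      C₁ * 2 ^ s₂ * ρ x ^ K₃ + ((c₂ : ℝ) * 2 ^ s₂ * ρ x) ^ c₂ ≤ 2 ^ y := by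
    intro x
    obtain ⟨y, hy⟩ := pow_unbounded_of_one_lt (C₁ * 2 ^ s₂ * ρ x ^ K₃ +
      ((c₂ : ℝ) * 2 ^ s₂ * ρ x) ^ c₂) (one_lt_two (α := ℝ))
    exact ⟨max x y, le_max_left _ _, hy.le.trans
      (pow_le_pow_right₀ (by norm_num) (le_max_right _ _))⟩
  choose f hf1 hf2 using hf
  obtain ⟨sh, hsh⟩ : ∃ sh : ℕ → ℕ, sh = fun i => Nat.rec t₀ (fun _ x => f x) i := ⟨_, rfl⟩
  have hs0 : sh 0 = t₀ := congrFun hsh 0
  have hsS : ∀ i, sh (i + 1) = f (sh i) := fun i =>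
    (congrFun hsh (i + 1)).trans (congrArg f (congrFun hsh i).symm)
  have hmono : Monotone sh := monotone_nat_of_le_succ fun i => by rw [hsS]; exact hf1 _
  have hst : ∀ i, t₀ ≤ sh i := fun i => hs0 ▸ hmono (Nat.zero_le i)
  have sh1 : ∀ i, t ≤ sh i := fun i => (by rw [ht₀]; exact le_max_left _ _ : t ≤ t₀).trans (hst i)
  have sh2 : ∀ i, a₁ * (1 + 1) ≤ sh i := fun i => (by
    rw [ht₀]; exact (le_max_left _ _).trans (le_max_right _ _) : a₁ * (1 + 1) ≤ t₀).trans (hst i)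
  have sh3 : ∀ i, a₂ * (s₂ + 1) ≤ sh i := fun i => (by
    rw [ht₀]; exact (le_max_right _ _).trans (le_max_right _ _) : a₂ * (s₂ + 1) ≤ t₀).trans (hst i)
  obtain ⟨s₁, hs₁⟩ := pow_unbounded_of_one_lt ((2 : ℝ) ^ (c₁ * (1 + 1)) * 2 ^ sh n +
    2 ^ (c₂ * (s₂ + 1)) * 2 ^ sh n + 2 ^ s₂) (one_lt_two (α := ℝ))
  have hs11 : (2 : ℝ) ^ (c₁ * (1 + 1)) * 2 ^ sh n ≤ 2 ^ s₁ := by
    have : (0 : ℝ) ≤ 2 ^ (c₂ * (s₂ + 1)) * 2 ^ sh n := by positivity
    have : (0 : ℝ) ≤ 2 ^ s₂ := by positivity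
    linarith
  have hs12 : (2 : ℝ) ^ (c₂ * (s₂ + 1)) * 2 ^ sh n ≤ 2 ^ s₁ := by
    have : (0 : ℝ) ≤ 2 ^ (c₁ * (1 + 1)) * 2 ^ sh n := by positivity
    have : (0 : ℝ) ≤ 2 ^ s₂ := by positivity
    linarith
  have hs13 : (2 : ℝ) ^ s₂ ≤ 2 ^ s₁ := by
    have : (0 : ℝ) ≤ 2 ^ (c₁ * (1 + 1)) * 2 ^ sh n := by positivity
    have : (0 : ℝ) ≤ 2 ^ (c₂ * (s₂ + 1)) * 2 ^ sh n := by positivity
    linarith
  refine ⟨sh, c₁ * c₂ + c₁ + c₂, s₁, by omega, ?_⟩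
  intro Ω Y Λ _ p a w A pt ln θ θ' g G H X hp hwa hR hg
  have hshift : ∀ i, 1 ≤ i → i ≤ n → ∀ x : ℝ, x ≤ 2 ^ sh i →
      x / 2 ^ g i ≤ 1 / 2 ^ (g i - sh i) := by
    intro i h1 hi x hx
    rw [div_le_div_iff₀ (by positivity) (by positivity), one_mul]
    calc x * 2 ^ (g i - sh i) ≤ 2 ^ sh i * 2 ^ (g i - sh i) :=
          mul_le_mul_of_nonneg_right hx (by positivity)
      _ = 2 ^ g i := by
          rw [← pow_add]
          congr 1
          have := hg i h1 hi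
          omega
  -- the sample in the box of the point side
  have hself : ∀ ω, A ω → ∀ i ≤ n, Bx (gt0 a g) (G (pt ω)) i (X ω) := by
    intro ω hω i hi j hj
    rcases Nat.eq_zero_or_pos j with rfl | h1
    · rw [hR.G_zero, eval_C, hR.X_zero ω hω, sub_self, abs_zero]
      positivity
    · rw [gt0_pos a g h1]
      exact hR.pos ω hω j h1 (by omega)
  have hposH : ∀ ω, A ω → ∀ i, 1 ≤ i → i ≤ n →
      |X ω i - eval (X ω) (H (ln ω) i)| ≤ 2 / 2 ^ g i := by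
    intro ω hω i h1 hi
    have h2 := hR.pos ω hω i h1 hi
    have h3 := hR.near ω hω i h1 hi (X ω) (hself ω hω i hi)
    have h4 := abs_add_le (X ω i - eval (X ω) (G (pt ω) i))
      (eval (X ω) (G (pt ω) i) - eval (X ω) (H (ln ω) i))
    rw [sub_add_sub_cancel] at h4
    calc _ ≤ 1 / 2 ^ g i + 1 / 2 ^ g i := h4.trans (add_le_add h2 h3)
      _ = 2 / 2 ^ g i := by ring
  -- the line side
  obtain ⟨zL, zL', PL, B₁, hB₁, hP₁, hL₁, hN₁⟩ := hclo₁ Ω Λ Λ p 1 A ln ln θ' θ' (gt0 w g) H H X hp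
    ⟨hR.H_tri, hR.H_deg, hR.H_tri, hR.H_deg, hR.H_zero, fun _ _ => rfl, fun ω _ i _ _ b _ => by
      rw [sub_self, abs_zero]
      positivity⟩
    (fun ω hω => by
      rw [hR.H_zero, eval_C, hR.X_zero ω hω, gt0_zero]
      exact hR.time ω hω)
    (fun ω hω i h1 hi => by
      rw [gt0_pos w g h1, pow_one]
      exact hposH ω hω i h1 hi)
    (fun i h1 hi => by
      rw [gt0_pos w g h1]
      exact (sh2 i).trans (hg i h1 hi))
  rw [pow_one] at hN₁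
  -- the boxes of the point side are in the dilated boxes of the line side
  have hbox : ∀ ω, A ω → ∀ i ≤ n + 1, ∀ b : ℕ → ℝ, Bx (gt0 a g) (G (pt ω)) i b →
      Bxr 2 (gt0 w g) (H (ln ω)) i b := by
    intro ω hω i hi b hb j hj
    have h0 := hb j hj
    rcases Nat.eq_zero_or_pos j with rfl | h1
    · rw [hR.G_zero, eval_C, gt0_zero] at h0
      rw [hR.H_zero, eval_C, gt0_zero]
      have h2 := hR.time ω hω
      have h3 : (1 : ℝ) / 2 ^ a ≤ 1 / 2 ^ w :=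
        one_div_le_one_div_of_le (by positivity) (pow_le_pow_right₀ (by norm_num) hwa)
      have h4 := abs_add_le (b 0 - θ (pt ω)) (θ (pt ω) - θ' (ln ω))
      rw [sub_add_sub_cancel] at h4
      calc _ ≤ 1 / 2 ^ w + 1 / 2 ^ w := h4.trans (add_le_add (h0.trans h3) h2)
        _ = 2 / 2 ^ w := by ring
    · rw [gt0_pos a g h1] at h0
      rw [gt0_pos w g h1]
      have h2 := hR.near ω hω j h1 (by omega) b fun l hl => hb l (hl.trans hj)
      have h4 := abs_add_le (b j - eval b (G (pt ω) j))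
        (eval b (G (pt ω) j) - eval b (H (ln ω) j))
      rw [sub_add_sub_cancel] at h4
      calc _ ≤ 1 / 2 ^ g j + 1 / 2 ^ g j := h4.trans (add_le_add h0 h2)
        _ = 2 / 2 ^ g j := by ring
  -- the two sides
  obtain ⟨R, hRd⟩ : ∃ R : LV × ℝ → ℕ → PN, R = fun v i =>
    if i = 0 then MvPolynomial.C v.2 else PL v.1 i := ⟨_, rfl⟩
  have hR0 : ∀ v, R v 0 = MvPolynomial.C v.2 := fun v => by rw [hRd]; exact if_pos rfl
  have hR1 : ∀ v i, 1 ≤ i → R v i = PL v.1 i := fun v i h1 => by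
    rw [hRd]; exact if_neg (by omega)
  have hnearS : ∀ ω, B₁ ω → ∀ i, 1 ≤ i → i ≤ n → ∀ b : ℕ → ℝ, Bx (gt0 a g) (G (pt ω)) i b →
      |eval b (G (pt ω) i) - eval b (PL (zL (ln ω)) i)| ≤ 2 ^ s₂ / 2 ^ g i := by
    intro ω hω i h1 hi b hb
    have hωA := hB₁ ω hω
    have h2 := hR.near ω hωA i h1 hi b hb
    have h3 := (hN₁ ω hω).2 i h1 (by omega) 2 (by norm_num) b (hbox ω hωA i (by omega) b hb)
    rw [gt0_pos w g h1] at h3
    have h4 := abs_add_le (eval b (G (pt ω) i) - eval b (H (ln ω) i))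
      (-(eval b (PL (zL (ln ω)) i) - eval b (H (ln ω) i)))
    rw [abs_neg] at h4
    have h5 : eval b (G (pt ω) i) - eval b (H (ln ω) i) +
      -(eval b (PL (zL (ln ω)) i) - eval b (H (ln ω) i)) =
      eval b (G (pt ω) i) - eval b (PL (zL (ln ω)) i) := by ring
    rw [h5] at h4
    refine (h4.trans (add_le_add h2 h3)).trans ?_
    rw [← add_div]
    exact div_le_div_of_nonneg_right (by linarith) (by positivity)
  obtain ⟨zS, zS', PS, B, hB, hP, hL, hN⟩ := hclo₂ Ω Y (LV × ℝ) p s₂ B₁ pt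
    (fun ω => (zL (ln ω), θ (pt ω))) θ Prod.snd (gt0 a g) G R X hp
    ⟨hR.G_tri, fun y i => (hR.G_deg y i).trans (by rw [hK₂]; exact le_max_left _ _),
      fun v i => by
        rcases Nat.eq_zero_or_pos i with rfl | h1
        · rw [hR0, vars_C]
          exact Finset.empty_subset _
        · rw [hR1 v i h1]
          exact hL₁.tri _ i,
      fun v i => by
        rcases Nat.eq_zero_or_pos i with rfl | h1
        · rw [hR0, totalDegree_C]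
          exact Nat.zero_le _
        · rw [hR1 v i h1]
          exact (hL₁.deg _ i).trans (by rw [hK₂]; exact le_max_right _ _),
      hR.G_zero, fun _ _ => rfl, fun ω hω i h1 hi b hb => by
        rw [hR1 _ i h1, gt0_pos a g h1]
        exact hnearS ω hω i h1 hi b hb⟩
    (fun ω hω => by
      rw [hR.G_zero, eval_C, hR.X_zero ω (hB₁ ω hω), sub_self, abs_zero]
      positivity)
    (fun ω hω i h1 hi => by
      rw [gt0_pos a g h1]
      exact (hR.pos ω (hB₁ ω hω) i h1 hi).trans (div_le_div_of_nonneg_right e2s (by positivity)))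
    (fun i h1 hi => by
      rw [gt0_pos a g h1]
      exact (sh3 i).trans (hg i h1 hi))
  refine ⟨zL, PL, zS, fun v r => zS' (v, r), PS, B, fun ω hω => hB₁ ω (hB ω hω), ?_,
    ⟨hL₁.tri, fun v i => (hL₁.deg v i).trans (by omega), hL₁.zero, hL₁.fst, hL.tri,
      fun v i => (hL.deg v i).trans (by omega), hL.zero, hL.fst, fun ω hω => hL.cls ω hω,
      fun ω hω i h1 hi => ?_, fun ω hω i h1 hi => ?_, fun ω hω i h1 hi b hb => ?_,
      fun ω hω => (hN₁ ω (hB ω hω)).mono_c hc₁ (by norm_num) (by omega), fun ω hω => ?_,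
      fun y j k hk => hL₁.supp y j k (hk.imp_left fun h h' => h (ex_mono_K (by omega) h')),
      (Sep.shift hL₁.sep hmono sh2 hg).mono hs11,
      fun y j k hk => hL.supp y j k (hk.imp_left fun h h' => h (ex_mono_K (by omega) h')),
      (Sep.shift hL.sep hmono sh3 hg).mono hs12⟩⟩
  · have h1 : Pe p A ≤ c₁ * (c₂ * Pe p B) :=
      hP₁.trans (mul_le_mul_of_nonneg_left hP (by linarith))
    refine h1.trans ?_
    rw [← mul_assoc]
    refine mul_le_mul_of_nonneg_right ?_ (Pe_nonneg hp _)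
    push_cast
    linarith
  · -- the line side at the sample
    have hωA := hB₁ ω (hB ω hω)
    have h2 := hposH ω hωA i h1 hi
    have h3 := (hN₁ ω (hB ω hω)).2 i h1 (by omega) 2 (by norm_num) (X ω)
      (hbox ω hωA i (by omega) _ (hself ω hωA i hi))
    rw [gt0_pos w g h1] at h3
    have h4 := abs_add_le (X ω i - eval (X ω) (H (ln ω) i))
      (-(eval (X ω) (PL (zL (ln ω)) i) - eval (X ω) (H (ln ω) i)))
    rw [abs_neg] at h4
    have h5 : X ω i - eval (X ω) (H (ln ω) i) +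
      -(eval (X ω) (PL (zL (ln ω)) i) - eval (X ω) (H (ln ω) i)) =
      X ω i - eval (X ω) (PL (zL (ln ω)) i) := by ring
    rw [h5] at h4
    refine (h4.trans (add_le_add h2 h3)).trans ?_
    rw [← add_div]
    refine hshift i h1 hi _ ?_
    have h6 : (2 : ℝ) ^ t ≤ 2 ^ sh i := pow_le_pow_right₀ (by norm_num) (sh1 i)
    have h7 : (0 : ℝ) ≤ ((c₂ : ℝ) * 2 ^ s₂ * 1) ^ c₂ := by positivity
    linarith
  · -- the point side at the sample
    have hωA := hB₁ ω (hB ω hω)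
    have h2 := hR.pos ω hωA i h1 hi
    have h3 := (hN ω hω).2 i h1 (by omega) 1 le_rfl (X ω) (hself ω hωA i hi)
    rw [gt0_pos a g h1] at h3
    have h4 := abs_add_le (X ω i - eval (X ω) (G (pt ω) i))
      (-(eval (X ω) (PS (zS (pt ω)) i) - eval (X ω) (G (pt ω) i)))
    rw [abs_neg] at h4
    have h5 : X ω i - eval (X ω) (G (pt ω) i) +
      -(eval (X ω) (PS (zS (pt ω)) i) - eval (X ω) (G (pt ω) i)) =
      X ω i - eval (X ω) (PS (zS (pt ω)) i) := by ring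
    rw [h5] at h4
    refine (h4.trans (add_le_add h2 h3)).trans ?_
    rw [← add_div]
    refine hshift i h1 hi _ ?_
    have h6 : (2 : ℝ) ^ t ≤ 2 ^ sh i := pow_le_pow_right₀ (by norm_num) (sh1 i)
    linarith
  · -- the two sides on the boxes
    obtain ⟨i, rfl⟩ : ∃ i', i = i' + 1 := ⟨i - 1, by omega⟩
    have e2h : (1 : ℝ) ≤ 2 ^ sh i := one_le_pow₀ (by norm_num)
    have hb1 : Bxr (2 ^ sh i) (gt0 a g) (PS (zS (pt ω))) (i + 1) b := by
      intro j hj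
      have h2 := hb j hj
      rcases Nat.eq_zero_or_pos j with rfl | h3
      · rw [gt0_zero] at h2 ⊢
        exact h2.trans (div_le_div_of_nonneg_right e2h (by positivity))
      · rw [gt0_pos _ _ h3] at h2 ⊢
        have h4 : (1 : ℝ) / 2 ^ (g j - sh j) = 2 ^ sh j / 2 ^ g j := by
          rw [div_eq_div_iff (by positivity) (by positivity), one_mul, ← pow_add]
          congr 1
          have := hg j h3 (by omega)
          omega
        refine (h2.trans (le_of_eq h4)).trans (div_le_div_of_nonneg_right ?_ (by positivity))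
        exact pow_le_pow_right₀ (by norm_num) (hmono (by omega))
    have hb2 := ((hN ω hω).mono (i' := i + 1) (by omega)).box hc₂ e2s e2h hb1 (i + 1) le_rfl
    have hb3 : Bxr (ρ (sh i)) (gt0 a g) (G (pt ω)) (i + 1) b := by
      refine hb2.mono ?_ le_rfl
      rw [hρ]
      exact pow_le_pow_right₀ (hΘ1 _) (hM _ hi)
    have h2 := (hN ω hω).2 (i + 1) h1 (by omega) (ρ (sh i)) (hρ1 _) b hb3
    rw [gt0_pos a g h1] at h2
    have h3 := hdil (G (pt ω)) (gt0 a g) (G (pt ω) (i + 1) - PL (zL (ln ω)) (i + 1)) (i + 1)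
      (2 ^ s₂ / 2 ^ g (i + 1)) (ρ (sh i))
      (hR.G_tri _) (fun j => (hR.G_deg _ j).trans (by rw [hK₂]; exact le_max_left _ _)) hi
      (AdxRow.vars_sub_le (hR.G_tri _ _) (hL₁.tri _ _))
      ((totalDegree_sub _ _).trans (max_le
        ((hR.G_deg _ _).trans (by rw [hK₂]; exact le_max_left _ _))
        ((hL₁.deg _ _).trans (by rw [hK₂]; exact le_max_right _ _)))) (hρ1 _)
      (fun b' hb' => by
        rw [map_sub]
        exact hnearS ω (hB ω hω) (i + 1) h1 hi b' hb') b hb3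
    rw [map_sub] at h3
    have h4 := abs_add_le (eval b (PS (zS (pt ω)) (i + 1)) - eval b (G (pt ω) (i + 1)))
      (eval b (G (pt ω) (i + 1)) - eval b (PL (zL (ln ω)) (i + 1)))
    rw [sub_add_sub_cancel] at h4
    refine (h4.trans (add_le_add h2 h3)).trans ?_
    have h5 : ((c₂ : ℝ) * 2 ^ s₂ * ρ (sh i)) ^ c₂ / 2 ^ g (i + 1) +
      C₁ * (2 ^ s₂ / 2 ^ g (i + 1)) * ρ (sh i) ^ K₃ =
      (C₁ * 2 ^ s₂ * ρ (sh i) ^ K₃ + ((c₂ : ℝ) * 2 ^ s₂ * ρ (sh i)) ^ c₂) / 2 ^ g (i + 1) := by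
      ring
    rw [h5]
    refine hshift (i + 1) h1 hi _ ?_
    rw [hsS]
    exact hf2 (sh i)
  · exact ((hN ω hω).mono_c hc₂ e2s (by omega)).mono_S (by linarith) hs13

/-- **Finitely many properties** of subevents, on one event. -/
theorem fin_iter {Ω ι : Type} [Fintype Ω] [DecidableEq ι] {p : Ω → ℝ} {c : ℝ} (hc : 0 ≤ c)
    (Φ : ι → (Ω → Prop) → Prop) (her : ∀ i B B', (∀ ω, B' ω → B ω) → Φ i B → Φ i B')
    (A : Ω → Prop) (h : ∀ i, ∀ B : Ω → Prop, (∀ ω, B ω → A ω) →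
      ∃ B', (∀ ω, B' ω → B ω) ∧ Pe p B ≤ c * Pe p B' ∧ Φ i B') (s : Finset ι) :
    ∃ B, (∀ ω, B ω → A ω) ∧ Pe p A ≤ c ^ s.card * Pe p B ∧ ∀ i ∈ s, Φ i B := by
  induction s using Finset.induction_on with
  | empty =>
    exact ⟨A, fun _ h => h, by simp, fun i hi => absurd hi (Finset.notMem_empty i)⟩
  | insert i s hi ih =>
    obtain ⟨B, h1, h2, h3⟩ := ih
    obtain ⟨B', h4, h5, h6⟩ := h i B h1
    refine ⟨B', fun ω hω => h1 ω (h4 ω hω), ?_, fun j hj => ?_⟩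
    · rw [Finset.card_insert_of_notMem hi, pow_succ, mul_assoc]
      exact h2.trans (mul_le_mul_of_nonneg_left h5 (pow_nonneg hc _))
    · rcases Finset.mem_insert.1 hj with rfl | h7
      · exact h6
      · exact her j B B' h4 (h3 j h7)

end CLO

end Pool.STAT
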