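import Pool.Agent.H40.MIC.TwoClo
import Pool.Agent.H68.STAT.Fam2

/-!
# From chains of two-sided labels to cells of labels with two parameters

`cd2`: chains of two-sided labels for the radii `a₀ + i z` and the windows `w₀ + j z`, `i, j ≤ M`,
give, on an event of probability at least a constant, the exact labels `CDat2` with the conditions
`Cnd2`. The values are values of lines in windows, and the labels are labels at points; both are
supported on the exceptional coefficients and separated.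
-/

set_option autoImplicit false

namespace Pool.STAT

open Finset MvPolynomial
open Pool.Agent.H49.Ent Pool.Agent.H32.Dense Pool.STK Pool.KS3 Pool.KA Pool.KSAT Pool.PB Pool.GEN
open Pool.K2S

variable {m J : ℕ}

namespace CLO

/-- The exact time, as a function of the point. -/
noncomputable def tx {F : Fam m J} (y : PtT F) : ℝ := (y.2.1 : ℝ) / 2 ^ J

theorem tx_eq (F : Fam m J) (ω : F.Ω) : tx (ptr F J ω) = F.t ω := rfl

/-- The point side as a system, with the exact time. -/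
noncomputable def Gx {F : Fam m J} (c : ℕ → Fin m) (n : ℕ)
    (G : PtT F → ℕ → MvPolynomial (Option (Fin m)) ℝ) (y : PtT F) : ℕ → PN :=
  sy c n (tx y) (G y)

/-- The line side as a system, with the cell of the time. -/
noncomputable def Hx {F : Fam m J} (c : ℕ → Fin m) (n w : ℕ)
    (H : LnT F → ℕ → MvPolynomial (Option (Fin m)) ℝ) (s : LnT F) : ℕ → PN :=
  sy c n (tl w s) (H s)

/-- The line as a path, in the coordinates of the chain. -/
noncomputable def pc {F : Fam m J} (c : ℕ → Fin m) (s : LnT F) (l : ℕ) : Polynomial ℝ :=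
  if l = 0 then Polynomial.X
  else Polynomial.C (s.1.1 (c (l - 1))) + Polynomial.C (s.1.2 (c (l - 1))) * Polynomial.X

theorem pc_deg {F : Fam m J} (c : ℕ → Fin m) (s : LnT F) (l : ℕ) : (pc c s l).natDegree ≤ 1 := by
  unfold pc
  split_ifs
  · exact Polynomial.natDegree_X_le
  · refine (Polynomial.natDegree_add_le _ _).trans (max_le ?_ ?_)
    · rw [Polynomial.natDegree_C]
      exact Nat.zero_le _
    · exact (Polynomial.natDegree_C_mul_le _ _).trans Polynomial.natDegree_X_le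

theorem gg_gt0 (a : ℕ) (g : ℕ → ℕ) : gg a g = gt0 a fun i => g (i - 1) := rfl

section raw

variable {F : Fam m J} {c : ℕ → Fin m} {n : ℕ} {Kv : ℕ → ℕ} {a w e : ℕ} {g : ℕ → ℕ}
  {A : F.Ω → Prop} {G : PtT F → ℕ → MvPolynomial (Option (Fin m)) ℝ}
  {H : LnT F → ℕ → MvPolynomial (Option (Fin m)) ℝ}

/-- **The two-sided data of a chain.** -/
theorem raw2_of {K : ℕ} (hw : w ≤ J) (hc : Inj c n) (hK : ∀ i < n, Kv i ≤ K)
    (h : ChOK F c n Kv a w e g A G H) :
    Raw2 n K a w A (ptr F J) (slam F w) tx (tl w) (fun i => g (i - 1)) (Gx c n G) (Hx c n w H)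
      (cx F fun i => c (i - 1)) := by
  have hGK : ∀ y, ∀ i < n, (G y i).totalDegree ≤ K := fun y i hi => (h.degG y i).trans (hK i hi)
  have hHK : ∀ s, ∀ i < n, (H s i).totalDegree ≤ K := fun s i hi => (h.degH s i).trans (hK i hi)
  refine ⟨fun y => sy_tri, fun y i => sy_deg (hGK y) i, fun s => sy_tri, fun s i =>
    sy_deg (hHK _) i, fun y => sy_zero, fun s => sy_zero, fun ω _ => ?_, fun ω _ => ?_,
    fun ω hω i hi1 hi => ?_, fun ω hω i hi1 hi b hb => ?_⟩
  · rw [tx_eq, tl_eq]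
    exact t_cell F hw ω
  · rw [tx_eq]
    exact if_pos rfl
  · obtain ⟨i, rfl⟩ : ∃ i', i = i' + 1 := ⟨i - 1, by omega⟩
    have h1 : cx F (fun i => c (i - 1)) ω (i + 1) = F.x ω (c i) := if_neg (by omega)
    unfold Gx
    rw [h1, sy_succ (by omega), eval_tr (B := bt F ω) hc (by omega) (h.depG _ i)
      (by
        show F.t ω = _
        exact (if_pos rfl).symm) (fun l hl => by
        show F.x ω (c l) = _
        exact (if_neg (by omega)).symm)]
    exact h.pos ω hω i (by omega)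
  · obtain ⟨i, rfl⟩ : ∃ i', i = i' + 1 := ⟨i - 1, by omega⟩
    have hb1 : Bxr 1 (gg a g) (sy c n (F.t ω) (G (ptr F J ω))) (i + 1) b := hb
    have h5 := nbx_of_bxr hc (h.depG _) (by omega) hb1
    have h6 := h.agr ω hω i (by omega) _ h5
    have h7 : eval b (Gx c n G (ptr F J ω) (i + 1)) =
        eval (fun o => eval b (vr c i o)) (G (ptr F J ω) i) :=
      eval_sy hc (h.depG _) (by omega) b
    have h8 : eval b (Hx c n w H (slam F w ω) (i + 1)) =
        eval (fun o => eval b (vr c i o)) (H (slam F w ω) i) :=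
      eval_sy hc (h.depH _) (by omega) b
    rw [h7, h8]
    exact h6

end raw

/-- The exact labels with two parameters, with any values `ρ i j` of the line and of the window,
which are added to the values of the labels. -/
noncomputable def cdt (F : Fam m J) (n : ℕ) {R : ℕ → ℕ → Type}
    (ρ : (i j : ℕ) → LnT F → R i j) (zL : ℕ → ℕ → LnT F → LV) (PL : ℕ → ℕ → LV → ℕ → PN)
    (zS : ℕ → ℕ → PtT F → LV) (PS : ℕ → ℕ → LV → ℕ → PN) : CDat2 F n where
  V i j := LV × R i j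
  S := LV
  li i j s := (zL i j s, ρ i j s)
  P i j v := PL i j v.1
  s := zS
  G := PS

/-- The values of all pairs are exact. -/
theorem cnd2_of {F : Fam m J} {c : ℕ → Fin m} {n K' s₁ M a₀ w₀ z : ℕ} {sh : ℕ → ℕ}
    {g : ℕ → ℕ → ℕ → ℕ} {B : F.Ω → Prop} {G : ℕ → ℕ → PtT F → ℕ → PN}
    {H : ℕ → ℕ → LnT F → ℕ → PN} {zL : ℕ → ℕ → LnT F → LV} {PL : ℕ → ℕ → LV → ℕ → PN}
    {zS : ℕ → ℕ → PtT F → LV} {zS' : ℕ → ℕ → LV → ℝ → LV} {PS : ℕ → ℕ → LV → ℕ → PN}
    {R : ℕ → ℕ → Type} (ρ : (i j : ℕ) → LnT F → R i j)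
    (hK' : 1 ≤ K')
    (h : ∀ i ≤ M, ∀ j ≤ M, Out2 n K' s₁ sh (a₀ + i * z) (w₀ + j * z) B (ptr F J)
      (slam F (w₀ + j * z)) tx (tl (w₀ + j * z)) (fun l => g i j (l - 1)) (G i j) (H i j)
      (cx F fun i => c (i - 1)) (zL i j) (PL i j) (zS i j) (zS' i j) (PS i j)) :
    (cdt F n ρ zL PL zS PS).Cnd2 (cx F fun i => c (i - 1)) (pc c) K' a₀ w₀ z M
      (fun i j l => g i j (l - 1) - sh l) B where
  X_zero ω := if_pos rfl
  X_pt ω ω' _ _ e l hl := by
    have h1 : F.X J ω = F.X J ω' := congrArg Prod.fst e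
    have h2 : F.T ω = F.T ω' := congrArg (fun y => y.2.1) e
    rcases Nat.eq_zero_or_pos l with rfl | hl0
    · have h3 : cx F (fun i => c (i - 1)) ω 0 = F.t ω := if_pos rfl
      have h4 : cx F (fun i => c (i - 1)) ω' 0 = F.t ω' := if_pos rfl
      rw [h3, h4]
      unfold Fam.t
      rw [h2, sub_self, abs_zero]
      positivity
    · have h3 : cx F (fun i => c (i - 1)) ω l = F.x ω (c (l - 1)) := if_neg (by omega)
      have h4 : cx F (fun i => c (i - 1)) ω' l = F.x ω' (c (l - 1)) := if_neg (by omega)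
      rw [h3, h4]
      have h5 : ⌊(2 : ℝ) ^ J * F.x ω (c (l - 1))⌋ = ⌊(2 : ℝ) ^ J * F.x ω' (c (l - 1))⌋ :=
        congrFun h1 (c (l - 1))
      have h6 := Int.abs_sub_lt_one_of_floor_eq_floor h5
      rw [← mul_sub, abs_mul, abs_of_pos (by positivity : (0 : ℝ) < 2 ^ J)] at h6
      rw [le_div_iff₀ (by positivity), mul_comm]
      exact h6.le
  str ω _ l hl := by
    have t1 : cx F (fun i => c (i - 1)) ω 0 = F.t ω := if_pos rfl
    rcases Nat.eq_zero_or_pos l with rfl | hl0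
    · have h3 : pc c (slam F w₀ ω) 0 = Polynomial.X := if_pos rfl
      rw [h3, Polynomial.eval_X]
    · have h3 : cx F (fun i => c (i - 1)) ω l = F.x ω (c (l - 1)) := if_neg (by omega)
      have h5 : pc c (slam F w₀ ω) l = Polynomial.C (F.u ω (c (l - 1))) +
          Polynomial.C (F.d ω (c (l - 1))) * Polynomial.X := if_neg (by omega)
      rw [h3, h5, t1, Polynomial.eval_add, Polynomial.eval_mul, Polynomial.eval_C,
        Polynomial.eval_C, Polynomial.eval_X]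
      unfold Fam.x
      ring
  pa_deg x l := (pc_deg c x l).trans hK'
  Pdeg i hi j hj x l _ _ := (h i hi j hj).Ldeg x.1 l
  Ptri i hi j hj x l _ _ := (h i hi j hj).Ltri x.1 l
  Gdeg i hi j hj x l _ _ := (h i hi j hj).Sdeg x l
  Gtri i hi j hj x l _ _ := (h i hi j hj).Stri x l
  s_c i hi j hj ω ω' hω hω' e eT := by
    have h1 : zL i j (slam F (w₀ + j * z) ω) = zL i j (slam F (w₀ + j * z) ω') := by
      have h2 := congrFun (congrFun (congrArg Prod.fst e) i) j
      simp only [CDat2.lab2] at h2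
      rw [if_pos ⟨le_rfl, le_rfl⟩, if_pos ⟨le_rfl, le_rfl⟩] at h2
      exact congrArg Prod.fst (Option.some.inj h2)
    have h3 : tx (ptr F J ω) = tx (ptr F J ω') := by
      rw [tx_eq, tx_eq]
      unfold Fam.t
      rw [eT]
    show zS i j (ptr F J ω) = zS i j (ptr F J ω')
    rw [(h i hi j hj).cls ω hω, (h i hi j hj).cls ω' hω', h1, h3]
  hgt i hi j hj ω hω l h1 hl := by
    have h2 : (cdt F n ρ zL PL zS PS).Ph2 w₀ z i j ω l =
        PL i j (zL i j (slam F (w₀ + j * z) ω)) l := if_neg (by omega)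
    rw [h2]
    exact (h i hi j hj).hgt ω hω l h1 hl
  pos i hi j hj ω hω l h1 hl := (h i hi j hj).pos ω hω l h1 hl
  agr i hi j hj ω hω l h1 hl b hb := by
    have h2 : (cdt F n ρ zL PL zS PS).Ph2 w₀ z i j ω l =
        PL i j (zL i j (slam F (w₀ + j * z) ω)) l := if_neg (by omega)
    rw [h2]
    refine (h i hi j hj).agr ω hω l h1 hl b fun k hk => ?_
    rcases Nat.eq_zero_or_pos k with rfl | hk0
    · rw [gt0_zero, (h i hi j hj).Szero, eval_C, (h i hi j hj).Sfst, tx_eq]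
      have h4 := hb.1
      have h5 : cx F (fun i => c (i - 1)) ω 0 = F.t ω := if_pos rfl
      rw [h5] at h4
      exact h4
    · rw [gt0_pos _ _ hk0]
      exact hb.2 k hk0 hk

/-- **From chains to exact labels with two parameters.** The event `B` has probability at least a
constant times the probability of `A`; the precisions decrease by `sh l` digits. -/
theorem cd2 (n K : ℕ) : ∃ (sh : ℕ → ℕ) (K' s₁ : ℕ), 1 ≤ K' ∧ ∀ (m J M a₀ w₀ z : ℕ)
    (F : Fam m J) (c : ℕ → Fin m) (Kv : ℕ → ℕ → ℕ → ℕ) (e : ℕ → ℕ → ℕ) (g : ℕ → ℕ → ℕ → ℕ)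
    (A : F.Ω → Prop) (G : ℕ → ℕ → PtT F → ℕ → MvPolynomial (Option (Fin m)) ℝ)
    (H : ℕ → ℕ → LnT F → ℕ → MvPolynomial (Option (Fin m)) ℝ), w₀ + M * z ≤ a₀ → a₀ ≤ J →
    Inj c n → (∀ i ≤ M, ∀ j ≤ M, ∀ l < n, Kv i j l ≤ K) →
    (∀ i ≤ M, ∀ j ≤ M, ∀ l < n, sh (l + 1) ≤ g i j l) →
    (∀ i ≤ M, ∀ j ≤ M, ChOK F c n (Kv i j) (a₀ + i * z) (w₀ + j * z) (e i j) (g i j) A (G i j)
      (H i j)) →
    ∃ (zL : ℕ → ℕ → LnT F → LV) (PL : ℕ → ℕ → LV → ℕ → PN) (zS : ℕ → ℕ → PtT F → LV)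
      (zS' : ℕ → ℕ → LV → ℝ → LV) (PS : ℕ → ℕ → LV → ℕ → PN) (B : F.Ω → Prop), Sub B A ∧
      Pe F.p A ≤ (K' : ℝ) ^ ((M + 1) ^ 2) * Pe F.p B ∧
      ∀ i ≤ M, ∀ j ≤ M, Out2 n K' s₁ sh (a₀ + i * z) (w₀ + j * z) B (ptr F J)
        (slam F (w₀ + j * z)) tx (tl (w₀ + j * z)) (fun l => g i j (l - 1)) (Gx c n (G i j))
        (Hx c n (w₀ + j * z) (H i j)) (cx F fun i => c (i - 1)) (zL i j) (PL i j) (zS i j)
        (zS' i j) (PS i j) := by
  classical
  obtain ⟨sh, K', s₁, hK', htwo⟩ := two_clo n K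
  refine ⟨sh, K', s₁, hK', ?_⟩
  intro m J M a₀ w₀ z F c Kv e g A G H hwa haJ hc hKv hg h
  have hwj : ∀ j ≤ M, w₀ + j * z ≤ a₀ := fun j hj =>
    (Nat.add_le_add_left (Nat.mul_le_mul_right z hj) w₀).trans hwa
  obtain ⟨B, hBA, hPe, hB⟩ := fin_iter (p := F.p) (c := (K' : ℝ)) (Nat.cast_nonneg K')
    (fun (q : ℕ × ℕ) (B : F.Ω → Prop) => q.1 ≤ M → q.2 ≤ M → ∃ (zL : LnT F → LV)
      (PL : LV → ℕ → PN) (zS : PtT F → LV) (zS' : LV → ℝ → LV) (PS : LV → ℕ → PN),
      Out2 n K' s₁ sh (a₀ + q.1 * z) (w₀ + q.2 * z) B (ptr F J)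
        (slam F (w₀ + q.2 * z)) tx (tl (w₀ + q.2 * z)) (fun l => g q.1 q.2 (l - 1))
        (Gx c n (G q.1 q.2)) (Hx c n (w₀ + q.2 * z) (H q.1 q.2)) (cx F fun i => c (i - 1)) zL PL
        zS zS' PS)
    (fun q B B' hB' hB hi hj => by
      obtain ⟨zL, PL, zS, zS', PS, h1⟩ := hB hi hj
      exact ⟨zL, PL, zS, zS', PS, h1.sub hB'⟩)
    A (fun q B hB => by
      by_cases hq : q.1 ≤ M ∧ q.2 ≤ M
      · obtain ⟨hi, hj⟩ := hq
        obtain ⟨zL, PL, zS, zS', PS, B', h1, h2, h3⟩ := htwo F.Ω (PtT F) (LnT F) F.p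
          (a₀ + q.1 * z) (w₀ + q.2 * z) B (ptr F J) (slam F (w₀ + q.2 * z)) tx
          (tl (w₀ + q.2 * z)) (fun l => g q.1 q.2 (l - 1)) (Gx c n (G q.1 q.2))
          (Hx c n (w₀ + q.2 * z) (H q.1 q.2)) (cx F fun i => c (i - 1)) F.isLaw
          ((hwj _ hj).trans (Nat.le_add_right _ _))
          ((raw2_of ((hwj _ hj).trans haJ) hc (hKv _ hi _ hj) (h _ hi _ hj)).sub hB)
          (fun l h1 hl => by
            have h3 := hg _ hi _ hj (l - 1) (by omega)
            rw [Nat.sub_add_cancel h1] at h3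
            exact h3)
        exact ⟨B', h1, h2, fun _ _ => ⟨zL, PL, zS, zS', PS, h3⟩⟩
      · refine ⟨B, fun _ h => h, ?_, fun hi hj => absurd ⟨hi, hj⟩ hq⟩
        have h1 : (1 : ℝ) ≤ K' := by exact_mod_cast hK'
        have h2 := Pe_nonneg F.isLaw B
        nlinarith)
    (range (M + 1) ×ˢ range (M + 1))
  have hcard : (range (M + 1) ×ˢ range (M + 1)).card = (M + 1) ^ 2 := by
    rw [card_product, card_range, pow_two]
  rw [hcard] at hPe
  have hB2 : ∀ i j : ℕ, ∃ (zL : LnT F → LV) (PL : LV → ℕ → PN) (zS : PtT F → LV)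
      (zS' : LV → ℝ → LV) (PS : LV → ℕ → PN), i ≤ M → j ≤ M →
      Out2 n K' s₁ sh (a₀ + i * z) (w₀ + j * z) B (ptr F J)
        (slam F (w₀ + j * z)) tx (tl (w₀ + j * z)) (fun l => g i j (l - 1))
        (Gx c n (G i j)) (Hx c n (w₀ + j * z) (H i j)) (cx F fun i => c (i - 1)) zL PL
        zS zS' PS := by
    intro i j
    by_cases hq : i ≤ M ∧ j ≤ M
    · obtain ⟨zL, PL, zS, zS', PS, h1⟩ := hB (i, j) (by
        rw [mem_product, mem_range, mem_range]
        exact ⟨by have := hq.1; omega, by have := hq.2; omega⟩) hq.1 hq.2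
      exact ⟨zL, PL, zS, zS', PS, fun _ _ => h1⟩
    · exact ⟨fun _ => (0, fun _ _ => 0), fun _ _ => 0, fun _ => (0, fun _ _ => 0), fun v _ => v,
        fun _ _ => 0, fun hi hj => absurd ⟨hi, hj⟩ hq⟩
  choose zL PL zS zS' PS hO using hB2
  have hO' := fun i (hi : i ≤ M) j (hj : j ≤ M) => hO i j hi hj
  exact ⟨zL, PL, zS, zS', PS, B, hBA, hPe, hO'⟩

end CLO

end Pool.STAT
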