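import Pool.Agent.H40.MIC.CD2
import Pool.Agent.H68.STAT.Ok2F
import Pool.Agent.H68.STAT.Net

/-!
# The field `net` of the cell of the labels of `cd2`

`cd2_net`: the field `net`.
-/

set_option autoImplicit false

namespace Pool.STAT

open Finset MvPolynomial
open Pool.Agent.H49.Ent Pool.Agent.H32.Dense Pool.STK Pool.KS3 Pool.KA Pool.KSAT Pool.PB Pool.GEN
open Pool.K2S

namespace CLO

/-- The field `net` for the labels of `cd2`. -/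
theorem cd2_net (n K' s₁ : ℕ) : ∃ C₁ : ℝ, 0 ≤ C₁ ∧ ∀ {m J : ℕ} {F : Fam m J} {c : ℕ → Fin m}
    {M a₀ w₀ z : ℕ} {sh : ℕ → ℕ} {g : ℕ → ℕ → ℕ → ℕ} {B : F.Ω → Prop}
    {G : ℕ → ℕ → PtT F → ℕ → PN} {H : ℕ → ℕ → LnT F → ℕ → PN} {zL : ℕ → ℕ → LnT F → LV}
    {PL : ℕ → ℕ → LV → ℕ → PN} {zS : ℕ → ℕ → PtT F → LV} {zS' : ℕ → ℕ → LV → ℝ → LV}
    {PS : ℕ → ℕ → LV → ℕ → PN}
    {R : ℕ → ℕ → Type} (ρ : (i j : ℕ) → LnT F → R i j),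
    (∀ i ≤ M, ∀ j ≤ M, Out2 n K' s₁ sh (a₀ + i * z) (w₀ + j * z) B (ptr F J)
      (slam F (w₀ + j * z)) tx (tl (w₀ + j * z)) (fun l => g i j (l - 1)) (G i j) (H i j)
      (cx F fun i => c (i - 1)) (zL i j) (PL i j) (zS i j) (zS' i j) (PS i j)) → 1 ≤ z →
    ∀ {q : F.Ω → ℝ}, IsLaw q →
    ∀ i ≤ M, ∀ j ≤ M, ∀ C' : ℝ, 0 ≤ C' → ∀ (Y : Type) (y : F.Ω → Y), Det q y F.T →
      (∀ ω ω', 0 < q ω → 0 < q ω' → y ω = y ω' → ∀ l, 1 ≤ l → l ≤ n → ∀ b : ℕ → ℝ,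
        (cdt F n ρ zL PL zS PS).Nb2 (cx F fun i => c (i - 1)) (fun i j l => g i j (l - 1) - sh l)
          i j (a₀ + i * z) l ω b →
        |eval b ((cdt F n ρ zL PL zS PS).Ps2 i j ω l) -
          eval b ((cdt F n ρ zL PL zS PS).Ps2 i j ω' l)| ≤
          Real.exp (C' * z) / 2 ^ (g i j (l - 1) - sh l)) →
      CH q (fun ω => (cdt F n ρ zL PL zS PS).s i j (ptr F J ω)) y ≤ C₁ * (C' + 1) * z := by
  obtain ⟨C₁, hC₁, hnet⟩ := Net.net_fam n K' (L := 2 ^ s₁) (by positivity)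
  refine ⟨C₁, hC₁, ?_⟩
  intro m J F c M a₀ w₀ z sh g B G H zL PL zS zS' PS R ρ h hz q hq i hi j hj C' hC' Y y hy hb
  have hO := h i hi j hj
  exact hnet (cdt F n ρ zL PL zS PS) (cx F fun i => c (i - 1)) q i j (a₀ + i * z) z
    (fun i j l => g i j (l - 1) - sh l) (gt0 (a₀ + i * z) fun l => g i j (l - 1) - sh l) (zS i j)
    (PS i j) hq hz rfl (fun l h1 _ => gt0_pos _ _ h1) hO.Szero (fun ω => hO.Sfst _)
    (fun ω => if_pos rfl) hO.Ssupp (fun y y' e j hj hk S' hS hb k => hO.Ssep y y' e j hj hk S' hS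
      hb k) (fun y y' e => e) (fun ω l _ _ => rfl) C' hC' Y y hy hb

end CLO

end Pool.STAT
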